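import Pool.Agent.Helper8.DY.G4Bg
import Pool.Agent.Helper32.DY.Ineq
import Pool.Agent.Helper10.DY.G4

/-!
# GAP4, labels (2,m,3): the sectors `j ≥ 7`, `F` beyond `V_2`, and `j ≤ 4`; GAP4 (MP_d13a5e_al)
-/

set_option autoImplicit false

namespace DY

open Set
open Pool.Agent.Helper32.DY (Two fm fw fe bf z1_nonneg z1_one fe_mem fe_z fe_n fe_r)
open Pool.Agent.Helper62.DY (RT rt_of_tri)
open DY.G4B

variable {E : Type*} [AddCommGroup E] [Module ℝ E]
variable {Ψ : Set E} {B : E →ₗ[ℝ] E →ₗ[ℝ] ℝ} {ρ φ : E →ₗ[ℝ] ℝ} {t d1 d2 x x' : E}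
variable {g x1 x2 g' x1' x2' : ℝ}

/-- the signs of `fm` below the index -/
theorem Good.fm8 (X : Xs Ψ B ρ φ t d1 d2 x x' g x1 x2 g' x1' x2') {k : ℕ}
    (hG : Good (-B t d2) (φ d2) k) : (∀ n ≤ k, 0 < fm (-B t d2) (-φ d2) n) ∧
      fm (-B t d2) (-φ d2) (k + 1) < 0 := by
  constructor
  · intro n hn
    cases n with
    | zero =>
      show (0 : ℝ) < 1
      exact one_pos
    | succ n =>
      have h1 := hG.hm n (by omega)
      have h2 : fm (-B t d2) (-φ d2) (n + 1) = -φ d2 * sq (-B t d2) (n + 1) - sq (-B t d2) n := rfl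
      rcases (show (0 : ℝ) ≤ fm (-B t d2) (-φ d2) (n + 1) by rw [h2]; linarith only [h1]).lt_or_eq with h3 | h3
      · exact h3
      · exact absurd h3.symm (X.fm_ne8 _)
  · have h1 := hG.hpos
    have h2 : fm (-B t d2) (-φ d2) (k + 1) = -φ d2 * sq (-B t d2) (k + 1) - sq (-B t d2) k := rfl
    rw [h2]
    linarith only [h1]

/-- the information of the root `(s, 1, s^2)` -/
theorem Xs.n8 (X : Xs Ψ B ρ φ t d1 d2 x x' g x1 x2 g' x1' x2') (hb1 : B t d1 = 0)
    (hb0 : B d1 d2 = -(1 / 2)) (hb : -B t d2 ≤ 1) (hs : 1.8477 ≤ 2 * -B t d2) :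
    -(2.87 - 1.3 * (2 * -B t d2)) < 2 * -B t d2 + ρ d1 + (2 * -B t d2) ^ 2 * ρ d2 := by
  have hR := rt_of_tri X.L.tri
  rw [hb1, hb0] at hR
  obtain ⟨s, hsd⟩ : ∃ s, s = 2 * -B t d2 := ⟨_, rfl⟩
  have hmem : s • t + (1 : ℝ) • d1 + (s ^ 2) • d2 ∈ Ψ := by
    have h1 := hR.r2 _ _ _ hR.e1
    have h2 := hR.r0 _ _ _ h1
    have h3 := hR.r2 _ _ _ h2
    have e : ∀ a b c a' b' c' : ℝ, a • t + b • d1 + c • d2 ∈ Ψ → a = a' → b = b' → c = c' →
        a' • t + b' • d1 + c' • d2 ∈ Ψ := by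
      rintro a b c a' b' c' h rfl rfl rfl
      exact h
    refine e _ _ _ _ _ _ h3 ?_ rfl ?_
    · rw [hsd]
      ring
    · rw [hsd]
      ring
  have hne : s • t + (1 : ℝ) • d1 + (s ^ 2) • d2 ≠ t := by
    intro h
    obtain ⟨-, h1, -⟩ := X.L.tri.indep (s - 1) 1 (s ^ 2) (by
      have : (s - 1) • t + (1 : ℝ) • d1 + (s ^ 2) • d2 = (s • t + (1 : ℝ) • d1 + (s ^ 2) • d2) - t := by
        module
      rw [this, h, sub_self])
    norm_num at h1
  have hs1 : 1.8477 ≤ s := by rw [hsd]; exact hs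
  have hs2 : s ≤ 2 := by linarith only [hb, hsd]
  have hS := X.L.str _ hmem ⟨s, 1, s ^ 2, rfl, Or.inr (by linarith only [hs1]), Or.inr le_rfl,
    Or.inr (by nlinarith only [hs1])⟩ hne
  have hc : -B t (s • t + (1 : ℝ) • d1 + (s ^ 2) • d2) = s ^ 3 / 2 - s := by
    have h1 := X.L.val_B 1 0 0 s 1 (s ^ 2)
    rw [one_smul, zero_smul, zero_smul, add_zero, add_zero] at h1
    rw [h1, hb1]
    have h2 : B t d2 = -(s / 2) := by linarith only [hsd]
    rw [h2]
    ring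
  have hr : ρ (s • t + (1 : ℝ) • d1 + (s ^ 2) • d2) = s + ρ d1 + s ^ 2 * ρ d2 := by
    simp only [map_add, map_smul, smul_eq_mul, X.L.rt]
    ring
  rw [hc, hr] at hS
  have hf := hS.foot
  have h1 : 1 ≤ s ^ 3 / 2 - s := by nlinarith only [hs1, hf]
  have hu := hS.ult h1
  rw [← hsd]
  by_contra hcon
  obtain ⟨r, hrd⟩ : ∃ r, r = s + ρ d1 + s ^ 2 * ρ d2 := ⟨_, rfl⟩
  rw [← hrd] at hf hu hcon
  have h2 : 0 < 2 * (s ^ 3 / 2 - s) * (2.87 - 1.3 * s) - 1 - (2.87 - 1.3 * s) ^ 2 := by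
    nlinarith only [mul_nonneg (sub_nonneg.2 hs1) (sub_nonneg.2 hs2),
      mul_nonneg (mul_nonneg (sub_nonneg.2 hs1) (sub_nonneg.2 hs2)) (sub_nonneg.2 hs1),
      mul_nonneg (mul_nonneg (sub_nonneg.2 hs1) (sub_nonneg.2 hs2)) (sub_nonneg.2 hs2),
      mul_nonneg (mul_nonneg (sub_nonneg.2 hs1) (sub_nonneg.2 hs2)) (mul_nonneg (sub_nonneg.2 hs1) (sub_nonneg.2 hs2)),
      mul_nonneg (mul_nonneg (sub_nonneg.2 hs1) (sub_nonneg.2 hs2)) (mul_nonneg (sub_nonneg.2 hs1) (sub_nonneg.2 hs1)),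
      mul_nonneg (mul_nonneg (sub_nonneg.2 hs1) (sub_nonneg.2 hs2)) (mul_nonneg (sub_nonneg.2 hs2) (sub_nonneg.2 hs2))]
  have h3 : (r + (2.87 - 1.3 * s)) * (r - (2.87 - 1.3 * s) + 2 * (s ^ 3 / 2 - s)) ≤ 0 := by
    apply mul_nonpos_of_nonpos_of_nonneg
    · linarith only [hcon]
    · nlinarith only [hcon, hf]
  nlinarith only [hu, h2, h3]

/-- the information of the root `(s^2-1, s, s^3-s)` -/
theorem Xs.v8 (X : Xs Ψ B ρ φ t d1 d2 x x' g x1 x2 g' x1' x2') (hb1 : B t d1 = 0)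
    (hb0 : B d1 d2 = -(1 / 2)) (hb : -B t d2 ≤ 1) (hs : 1.8 ≤ 2 * -B t d2) :
    -0.43 < ((2 * -B t d2) ^ 2 - 1) + 2 * -B t d2 * ρ d1 + ((2 * -B t d2) ^ 3 - 2 * -B t d2) * ρ d2 := by
  have hR := rt_of_tri X.L.tri
  rw [hb1, hb0] at hR
  obtain ⟨s, hsd⟩ : ∃ s, s = 2 * -B t d2 := ⟨_, rfl⟩
  have hmem : (s ^ 2 - 1) • t + s • d1 + (s ^ 3 - s) • d2 ∈ Ψ := by
    have h1 := hR.r2 _ _ _ hR.e0
    have h2 := hR.r1 _ _ _ h1
    have h3 := hR.r0 _ _ _ h2
    have h4 := hR.r2 _ _ _ h3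
    have e : ∀ a b c a' b' c' : ℝ, a • t + b • d1 + c • d2 ∈ Ψ → a = a' → b = b' → c = c' →
        a' • t + b' • d1 + c' • d2 ∈ Ψ := by
      rintro a b c a' b' c' h rfl rfl rfl
      exact h
    refine e _ _ _ _ _ _ h4 ?_ ?_ ?_
    · rw [hsd]
      ring
    · rw [hsd]
      ring
    · rw [hsd]
      ring
  have hs1 : 1.8 ≤ s := by rw [hsd]; exact hs
  have hs2 : s ≤ 2 := by linarith only [hb, hsd]
  have hne : (s ^ 2 - 1) • t + s • d1 + (s ^ 3 - s) • d2 ≠ t := by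
    intro h
    obtain ⟨-, h1, -⟩ := X.L.tri.indep (s ^ 2 - 1 - 1) s (s ^ 3 - s) (by
      have : (s ^ 2 - 1 - 1) • t + s • d1 + (s ^ 3 - s) • d2 =
          ((s ^ 2 - 1) • t + s • d1 + (s ^ 3 - s) • d2) - t := by
        module
      rw [this, h, sub_self])
    linarith only [hs1, h1]
  have h00 : 3.24 ≤ s ^ 2 := by nlinarith only [hs1]
  have h01 : 1 ≤ s ^ 3 - s := by
    have : 1.8 * 2.24 ≤ s * (s ^ 2 - 1) := mul_le_mul hs1 (by linarith only [h00]) (by norm_num) (by linarith only [hs1])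
    nlinarith only [this]
  have hS := X.L.str _ hmem ⟨s ^ 2 - 1, s, s ^ 3 - s, rfl, Or.inr (by linarith only [h00]), Or.inr (by linarith only [hs1]),
    Or.inr h01⟩ hne
  have hc : -B t ((s ^ 2 - 1) • t + s • d1 + (s ^ 3 - s) • d2) = (s ^ 2 - 1) * (s ^ 2 / 2 - 1) := by
    have h1 := X.L.val_B 1 0 0 (s ^ 2 - 1) s (s ^ 3 - s)
    rw [one_smul, zero_smul, zero_smul, add_zero, add_zero] at h1
    rw [h1, hb1]
    have h2 : B t d2 = -(s / 2) := by linarith only [hsd]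
    rw [h2]
    ring
  have hr : ρ ((s ^ 2 - 1) • t + s • d1 + (s ^ 3 - s) • d2) = (s ^ 2 - 1) + s * ρ d1 + (s ^ 3 - s) * ρ d2 := by
    simp only [map_add, map_smul, smul_eq_mul, X.L.rt]
    ring
  rw [hc, hr] at hS
  have hf := hS.foot
  have h0 : 3.24 ≤ s ^ 2 := by nlinarith only [h00]
  have h1 : 1.3888 ≤ (s ^ 2 - 1) * (s ^ 2 / 2 - 1) := by
    nlinarith only [h0, mul_nonneg (by linarith only [h0] : 0 ≤ s ^ 2 - 3.24) (by linarith only [h0] : 0 ≤ s ^ 2 - 3.24)]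
  have hu := hS.ult (by linarith only [h1])
  rw [← hsd]
  by_contra hcon
  obtain ⟨r, hrd⟩ : ∃ r, r = (s ^ 2 - 1) + s * ρ d1 + (s ^ 3 - s) * ρ d2 := ⟨_, rfl⟩
  obtain ⟨c, hcd⟩ : ∃ c, c = (s ^ 2 - 1) * (s ^ 2 / 2 - 1) := ⟨_, rfl⟩
  rw [← hrd, ← hcd] at hf hu
  rw [← hrd] at hcon
  rw [← hcd] at h1
  have h3 : (r + 0.43) * (r - 0.43 + 2 * c) ≤ 0 := by
    apply mul_nonpos_of_nonpos_of_nonneg
    · linarith only [hcon]
    · nlinarith only [h1, hf]
  nlinarith only [h1, hu, h3]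

/-- **`j ≥ 7` and beyond `V_2`** -/
theorem g4Seven (Ψ : Set E) (B : E →ₗ[ℝ] E →ₗ[ℝ] ℝ) : G4Seven Ψ B := by
  intro ρ φ t d1 d2 x x' g x1 x2 g' x1' x2' X hb1 hb0 hb _ h3 _ hs6 hGB
  have T := X.two8
  have hR := rt_of_tri X.L.tri
  rw [hb1, hb0, neg_zero, neg_neg] at T
  have hle := X.le_one.1
  have hb0' : 0 ≤ -B t d2 := hR.b2n
  have hf2 := X.L.str_2.foot
  obtain ⟨b, hbd⟩ : ∃ b, b = -B t d2 := ⟨_, rfl⟩
  have hge : ∀ n, 0 < sq (-B t d2) (n + 1) → 1 ≤ sq (-B t d2) (n + 1) := hR.pge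
  rcases hGB with ⟨k, hk, hG⟩ | hB
  · obtain ⟨hfm, hfm'⟩ := hG.fm8 X
    have hs : ∀ n, 1 ≤ n → n ≤ k + 1 → 1 ≤ sq (-B t d2) n := by
      intro n h1 h2
      obtain ⟨n, rfl⟩ : ∃ m, n = m + 1 := ⟨n - 1, by omega⟩
      exact hge n (hG.hs n (by omega))
    have hs' : 0 ≤ sq (-B t d2) (k + 2) := hR.pnn k (hG.hs k le_rfl)
    have hnk := hG.nk X.L.str_2 X.h2
    obtain ⟨hsge, -⟩ := s_ge (hs 2 (by omega) (by omega)) (hs 3 (by omega) (by omega))
      (hs 7 (by omega) (by omega))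
    have hn := X.n8 hb1 hb0 hb hsge
    rcases Nat.even_or_odd' k with ⟨i, rfl | rfl⟩
    · -- `k = 2 i`
      have e1 := (sq_even8 (-B t d2) i).2
      have e2 := (sq_even8 (-B t d2) i).1
      have hsk := hs (2 * i + 1) (by omega) le_rfl
      have hu := hs i (by omega) (by omega)
      have hv := hs (i + 1) (by omega) (by omega)
      have huv := sq_norm (-B t d2) i
      have h2 : 0 ≤ (sq (-B t d2) (i + 1) + sq (-B t d2) i) * ρ d2 +
          ((2 * -B t d2 + 1) * sq (-B t d2) i - sq (-B t d2) (i + 1)) := by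
        rw [e1, e2] at hnk
        rw [e1] at hsk
        have h4 : 0 < sq (-B t d2) (i + 1) - sq (-B t d2) i := by
          by_contra hcon
          have : sq (-B t d2) (i + 1) ^ 2 ≤ sq (-B t d2) i ^ 2 := by nlinarith only [hv, hcon]
          linarith only [hsk, this]
        have h5 : 0 < (sq (-B t d2) (i + 1) - sq (-B t d2) i) *
            ((sq (-B t d2) (i + 1) + sq (-B t d2) i) * ρ d2 +
              ((2 * -B t d2 + 1) * sq (-B t d2) i - sq (-B t d2) (i + 1))) := by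
          nlinarith only [hnk, huv]
        exact ((mul_pos_iff_of_pos_left h4).1 h5).le
      rcases Nat.lt_or_ge i 4 with hi | hi
      · have hi3 : i = 3 := by omega
        subst hi3
        have hK : (1 + fm (-B t d2) (-φ d2) 7) * (x2 * x1' - x2' * x1) < sq (-B t d2) 7 * x1' := by
          by_contra hcon
          refine X.kcrit hG.hs hG.hm hG.hpos ?_
          have e7 : fm (-B t d2) (-φ d2) 7 = -φ d2 * sq (-B t d2) 7 - sq (-B t d2) 6 := rfl
          have e8 : sq (-B t d2) (2 * 3 + 1) = sq (-B t d2) 7 := rfl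
          have e9 : sq (-B t d2) (2 * 3) = sq (-B t d2) 6 := rfl
          rw [e8, e9]
          rw [e7] at hcon
          have h6 := not_lt.1 hcon
          nlinarith only [h6]
        have := odd_sector7 T hb (fun n h1 h2 => hs n h1 (by omega)) (fun n h1 => hfm n (by omega))
          hfm' hK h2 hn
        linarith only [hle, this]
      · have := odd_sector9 T hb hi (fun n h1 h2 => hs n h1 (by omega)) (by linarith only [hsk])
          (fun n h1 => hfm n (by omega)) h2 hn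
        linarith only [hle, this]
    · -- `k = 2 i + 1`
      have e1 := (sq_even8 (-B t d2) i).2
      have e2 := (sq_even8 (-B t d2) (i + 1)).1
      have e4 : sq (-B t d2) (i + 1 + 1) = 2 * -B t d2 * sq (-B t d2) (i + 1) - sq (-B t d2) i := rfl
      rw [e4] at e2
      have hsk := hs (2 * i + 1 + 1) (by omega) le_rfl
      have hu := hs i (by omega) (by omega)
      have hv := hs (i + 1) (by omega) (by omega)
      have huv := sq_norm (-B t d2) i
      have e3 : sq (-B t d2) (2 * i + 1 + 1) = sq (-B t d2) (2 * (i + 1)) := rfl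
      have h2 : 0 ≤ sq (-B t d2) (i + 1) * ρ d2 + sq (-B t d2) i := by
        rw [e3, e1, e2] at hnk
        rw [e3, e2] at hsk
        have h4 : 0 < 2 * -B t d2 * sq (-B t d2) (i + 1) - 2 * sq (-B t d2) i := by
          by_contra hcon
          have : sq (-B t d2) (i + 1) * (2 * -B t d2 * sq (-B t d2) (i + 1) - 2 * sq (-B t d2) i) ≤ 0 :=
            mul_nonpos_of_nonneg_of_nonpos (by linarith only [hv]) (by linarith only [hcon])
          nlinarith only [hsk, hv, hcon]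
        have h5 : 0 < (2 * -B t d2 * sq (-B t d2) (i + 1) - 2 * sq (-B t d2) i) *
            (sq (-B t d2) (i + 1) * ρ d2 + sq (-B t d2) i) := by
          nlinarith only [hnk, huv]
        exact ((mul_pos_iff_of_pos_left h4).1 h5).le
      have := even_sector T hb (by omega : 3 ≤ i) (fun n h1 h2 => hs n h1 (by omega))
        (by
          have : 2 * i + 1 + 1 = 2 * i + 2 := rfl
          linarith only [hsk])
        (fun n h1 => hfm n (by omega)) h2 hn
      linarith only [hle, this]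
  · -- beyond
    rcases X.L.tri.cp'.sq_dich with ⟨h1, h2⟩ | ⟨m, h1, h2, h4, h5⟩
    · refine T.no_inf h1 fun k => ?_
      cases k with
      | zero =>
        show (0 : ℝ) < 1
        exact one_pos
      | succ k =>
        have h6 := hB k (fun i _ => by linarith only [h2 i])
        have h7 : fm (-B t d2) (-φ d2) (k + 1) = -φ d2 * sq (-B t d2) (k + 1) - sq (-B t d2) k := rfl
        rcases (show (0 : ℝ) ≤ fm (-B t d2) (-φ d2) (k + 1) by rw [h7]; linarith only [h6]).lt_or_eq with h3 | h3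
        · exact h3
        · exact absurd h3.symm (X.fm_ne8 _)
    · have hfm : ∀ n ≤ m + 1, 0 < fm (-B t d2) (-φ d2) n := by
        intro n hn
        cases n with
        | zero =>
          show (0 : ℝ) < 1
          exact one_pos
        | succ k =>
          have h6 := hB k (fun i hi => by linarith only [h5 i (by omega)])
          have h7 : fm (-B t d2) (-φ d2) (k + 1) = -φ d2 * sq (-B t d2) (k + 1) - sq (-B t d2) k := rfl
          rcases (show (0 : ℝ) ≤ fm (-B t d2) (-φ d2) (k + 1) by rw [h7]; linarith only [h6]).lt_or_eq with h3 | h3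
          · exact h3
          · exact absurd h3.symm (X.fm_ne8 _)
      have hs : ∀ n, 1 ≤ n → n ≤ m + 1 → 1 ≤ sq (-B t d2) n := by
        intro n h1 h2
        obtain ⟨n, rfl⟩ : ∃ m, n = m + 1 := ⟨n - 1, by omega⟩
        exact h5 n (by omega)
      have hm5 : 5 ≤ m := by
        by_contra hcon
        have := hs6 (m + 1) (by omega)
        have h6 : sq (-B t d2) (m + 1 + 1) = sq (-B t d2) (m + 2) := rfl
        rw [h6, h1] at this
        exact absurd this (lt_irrefl _)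
      rcases Nat.eq_or_lt_of_le hm5 with hm | hm
      · subst hm
        have hv := X.v8 hb1 hb0 hb (by
          -- `3 < s^2`, `s^3 - s^2 - 2 s + 1 = 0`
          have h7 : sq (-B t d2) 7 = 0 := h1
          obtain ⟨s, hsd⟩ : ∃ s, s = 2 * -B t d2 := ⟨_, rfl⟩
          rw [sq7] at h7
          rw [← hsd] at h3 h7 ⊢
          have hs2 : s ≤ 2 := by linarith only [h4, hsd]
          have h8 : (s ^ 3 - s ^ 2 - 2 * s + 1) * (s ^ 3 + s ^ 2 - 2 * s - 1) = 0 := by
            linear_combination h7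
          have h9 : 0 ≤ s := by rw [hsd]; linarith only [hb0']
          have h10 : 1.7 ≤ s := by nlinarith only [h3, h9]
          rcases mul_eq_zero.1 h8 with h11 | h11
          · by_contra hcon
            nlinarith only [h11, mul_nonneg (sub_nonneg.2 h10) (sub_nonneg.2 (not_le.1 hcon).le)]
          · exfalso
            nlinarith only [h10, h11])
        have := odd_sector77 T hb (fun n h1 h2 => hs n h1 (by omega)) h1
          (fun n h1 => hfm n (by omega)) hf2 hv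
        linarith only [hle, this]
      · obtain ⟨hsge, -⟩ := s_ge (hs 2 (by omega) (by omega)) (hs 3 (by omega) (by omega))
          (hs 7 (by omega) (by omega))
        have hn := X.n8 hb1 hb0 hb hsge
        rcases Nat.even_or_odd' m with ⟨j, rfl | rfl⟩
        · -- `m + 1 = 2 j + 1`
          have e2 := (sq_even8 (-B t d2) (j + 1)).1
          have e4 : sq (-B t d2) (j + 1 + 1) = 2 * -B t d2 * sq (-B t d2) (j + 1) - sq (-B t d2) j := rfl
          have e3 : sq (-B t d2) (2 * (j + 1)) = sq (-B t d2) (2 * j + 2) := rfl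
          rw [e4, e3, h1] at e2
          have hv := hs (j + 1) (by omega) (by omega)
          have h6 : 2 * -B t d2 * sq (-B t d2) (j + 1) - 2 * sq (-B t d2) j = 0 := by
            rcases mul_eq_zero.1 e2.symm with h7 | h7
            · linarith only [hv, h7]
            · linarith only [h7]
          have h7 : 0 ≤ sq (-B t d2) (j + 1) * ρ d2 + sq (-B t d2) j := by
            nlinarith only [hf2, hv, h6]
          have := even_sector T hb (by omega : 3 ≤ j) (fun n h1 h2 => hs n h1 (by omega)) h1.ge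
            (fun n h1 => hfm n (by omega)) h7 hn
          linarith only [hle, this]
        · -- `m + 1 = 2 (j + 1)`
          have e1 := (sq_even8 (-B t d2) (j + 1)).2
          have e3 : sq (-B t d2) (2 * (j + 1) + 1) = sq (-B t d2) (2 * j + 1 + 2) := rfl
          rw [e3, h1] at e1
          have hu := hs (j + 1) (by omega) (by omega)
          have hv := hs (j + 1 + 1) (by omega) (by omega)
          have h6 : sq (-B t d2) (j + 1 + 1) = sq (-B t d2) (j + 1) := by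
            have : (sq (-B t d2) (j + 1 + 1) - sq (-B t d2) (j + 1)) *
                (sq (-B t d2) (j + 1 + 1) + sq (-B t d2) (j + 1)) = 0 := by linarith only [e1]
            rcases mul_eq_zero.1 this with h7 | h7
            · linarith only [h7]
            · linarith only [hu, hv, h7]
          have h7 : 0 ≤ (sq (-B t d2) (j + 1 + 1) + sq (-B t d2) (j + 1)) * ρ d2 +
              ((2 * -B t d2 + 1) * sq (-B t d2) (j + 1) - sq (-B t d2) (j + 1 + 1)) := by
            rw [h6]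
            nlinarith only [hf2, hu]
          have := odd_sector9 T hb (by omega : 4 ≤ j + 1) (fun n h1 h2 => hs n h1 (by omega))
            (by
              have e5 : sq (-B t d2) (2 * (j + 1) + 1) = sq (-B t d2) (2 * j + 1 + 2) := rfl
              rw [e5, h1])
            (fun n h1 => hfm n (by omega)) h7 hn
          linarith only [hle, this]

/-- **`j ≤ 4`** -/
theorem g4Four (Ψ : Set E) (B : E →ₗ[ℝ] E →ₗ[ℝ] ℝ) : G4Four Ψ B := by
  intro ρ φ t d1 d2 x x' g x1 x2 g' x1' x2' X hb1 hb0 hb ha k hk hG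
  have T := X.two8
  rw [hb1, hb0, neg_zero, neg_neg] at T
  have hk1 := hG.pos X.h2
  obtain ⟨hfm, hfm'⟩ := hG.fm8 X
  have hx1 := T.v1
  have hE := T.e_pos (hfm k le_rfl)
  have hz := z1_nonneg (fe_z T.h T.hy (by linarith only [hx1]) (k + 1))
  have h0 : g + x1 * φ d1 + x2 * φ d2 = 0 := by
    have := X.c.fz
    linarith only [this]
  have f1 := hfm 1 hk1
  have m0 : fm (-B t d2) (-φ d2) 0 = 1 := rfl
  have m1 : fm (-B t d2) (-φ d2) 1 = -φ d2 * 1 - 0 := rfl
  have m2 : fm (-B t d2) (-φ d2) 2 = 2 * -B t d2 * fm (-B t d2) (-φ d2) 1 - fm (-B t d2) (-φ d2) 0 :=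
    Pool.Agent.Helper32.DY.fm_rec _ _ 0
  have m3 : fm (-B t d2) (-φ d2) 3 = 2 * -B t d2 * fm (-B t d2) (-φ d2) 2 - fm (-B t d2) (-φ d2) 1 :=
    Pool.Agent.Helper32.DY.fm_rec _ _ 1
  have m4 : fm (-B t d2) (-φ d2) 4 = 2 * -B t d2 * fm (-B t d2) (-φ d2) 3 - fm (-B t d2) (-φ d2) 2 :=
    Pool.Agent.Helper32.DY.fm_rec _ _ 2
  have w1 : fw 0 (1 / 2) 1 = 1 := by
    unfold fw
    norm_num
  have w2 : fw 0 (1 / 2) 2 = 0 := by
    unfold fw
    norm_num
  have w3 : fw 0 (1 / 2) 3 = 1 := by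
    unfold fw
    norm_num
  have w4 : fw 0 (1 / 2) 4 = 0 := by
    unfold fw
    norm_num
  have e0 : fe 0 (-B t d2) (1 / 2) x1 x2 g 0 = x2 := rfl
  have e1 : fe 0 (-B t d2) (1 / 2) x1 x2 g 1 = g := rfl
  have e2 : fe 0 (-B t d2) (1 / 2) x1 x2 g 2 = 2 * -B t d2 * fe 0 (-B t d2) (1 / 2) x1 x2 g 1 +
    fw 0 (1 / 2) 1 * x1 - fe 0 (-B t d2) (1 / 2) x1 x2 g 0 := rfl
  have e3 : fe 0 (-B t d2) (1 / 2) x1 x2 g 3 = 2 * -B t d2 * fe 0 (-B t d2) (1 / 2) x1 x2 g 2 +
    fw 0 (1 / 2) 2 * x1 - fe 0 (-B t d2) (1 / 2) x1 x2 g 1 := rfl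
  have e4 : fe 0 (-B t d2) (1 / 2) x1 x2 g 4 = 2 * -B t d2 * fe 0 (-B t d2) (1 / 2) x1 x2 g 3 +
    fw 0 (1 / 2) 3 * x1 - fe 0 (-B t d2) (1 / 2) x1 x2 g 2 := rfl
  rw [w1, e0, e1] at e2
  rw [w2, e1] at e3
  rw [w3] at e4
  have hya : 0 ≤ x1 * (φ d1 + φ d2) := mul_nonneg (by linarith only [hx1]) ha
  obtain rfl | rfl | rfl : k = 1 ∨ k = 2 ∨ k = 3 := by omega
  · -- index 2
    have g1 : (1 : ℕ) + 1 = 2 := rfl
    rw [g1] at hfm' hz
    have a1 : 0 < fe 0 (-B t d2) (1 / 2) x1 x2 g 1 * -fm (-B t d2) (-φ d2) 2 :=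
      mul_pos (by linarith only [hE]) (by linarith only [hfm'])
    have a2 : 0 ≤ fe 0 (-B t d2) (1 / 2) x1 x2 g 2 * fm (-B t d2) (-φ d2) 1 :=
      mul_nonneg hz (by linarith only [f1])
    rw [e1, m2, m1, m0] at a1
    rw [e2, m1] at a2
    nlinarith only [ha, hx1, h0, a1, a2]
  · have g1 : (2 : ℕ) + 1 = 3 := rfl
    rw [g1] at hfm' hz
    have f2 := hfm 2 le_rfl
    have a1 : 0 < fe 0 (-B t d2) (1 / 2) x1 x2 g 2 * -fm (-B t d2) (-φ d2) 3 :=
      mul_pos (by linarith only [hE]) (by linarith only [hfm'])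
    have a2 : 0 ≤ fe 0 (-B t d2) (1 / 2) x1 x2 g 3 * fm (-B t d2) (-φ d2) 2 :=
      mul_nonneg hz (by linarith only [f2])
    have key : fe 0 (-B t d2) (1 / 2) x1 x2 g 2 * -fm (-B t d2) (-φ d2) 3 +
        fe 0 (-B t d2) (1 / 2) x1 x2 g 3 * fm (-B t d2) (-φ d2) 2 + x1 * (φ d1 + φ d2) = 0 := by
      rw [m3, e3, m2, e2, m1, m0]
      linear_combination h0
    linarith only [hya, a1, a2, key]
  · have g1 : (3 : ℕ) + 1 = 4 := rfl
    rw [g1] at hfm' hz
    have f3 := hfm 3 le_rfl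
    have a1 : 0 < fe 0 (-B t d2) (1 / 2) x1 x2 g 3 * -fm (-B t d2) (-φ d2) 4 :=
      mul_pos (by linarith only [hE]) (by linarith only [hfm'])
    have a2 : 0 ≤ fe 0 (-B t d2) (1 / 2) x1 x2 g 4 * fm (-B t d2) (-φ d2) 3 :=
      mul_nonneg hz (by linarith only [f3])
    have key : fe 0 (-B t d2) (1 / 2) x1 x2 g 3 * -fm (-B t d2) (-φ d2) 4 +
        fe 0 (-B t d2) (1 / 2) x1 x2 g 4 * fm (-B t d2) (-φ d2) 3 +
        x1 * (2 * -B t d2 + φ d1 + (2 * -B t d2) ^ 2 * φ d2) = 0 := by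
      rw [m4, e4, m3, e3, m2, e2, m1, m0]
      linear_combination h0
    rcases le_or_gt 0 (2 * -B t d2 + φ d1 + (2 * -B t d2) ^ 2 * φ d2) with hn | hn
    · have := mul_nonneg (by linarith only [hx1] : 0 ≤ x1) hn
      linarith only [a1, a2, key, this]
    · have hr := fe_r T.h T.hy 3
      have hr' : x1 ≤ fe 0 (-B t d2) (1 / 2) x1 x2 g 4 := by
        rcases hr with ⟨-, -, h1⟩ | ⟨h1, -, -⟩
        · have h2 := z1_nonneg h1
          have g2 : (3 : ℕ) + 1 = 4 := rfl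
          rw [g2, w3, w4] at h2
          linarith only [h2]
        · have := z1_nonneg h1
          linarith only [hE, this]
      have key2 : fe 0 (-B t d2) (1 / 2) x1 x2 g 3 * -fm (-B t d2) (-φ d2) 4 +
          fe 0 (-B t d2) (1 / 2) x1 x2 g 4 * (φ d1 + φ d2) +
          (fe 0 (-B t d2) (1 / 2) x1 x2 g 4 - x1) * -(2 * -B t d2 + φ d1 + (2 * -B t d2) ^ 2 * φ d2) = 0 := by
        have m3' : fm (-B t d2) (-φ d2) 3 = (φ d1 + φ d2) - (2 * -B t d2 + φ d1 + (2 * -B t d2) ^ 2 * φ d2) := by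
          rw [m3, m2, m1, m0]
          ring
        rw [m3'] at key
        linear_combination key
      have a3 := mul_nonneg hz ha
      have a4 := mul_nonneg (sub_nonneg.2 hr') (by linarith only [hn] :
        0 ≤ -(2 * -B t d2 + φ d1 + (2 * -B t d2) ^ 2 * φ d2))
      linarith only [a1, key2, a3, a4]

/-- **GAP4** -/
theorem gap4 (Ψ : Set E) (B : E →ₗ[ℝ] E →ₗ[ℝ] ℝ) : GAP4 Ψ B :=
  gap4_of10 (g4Four Ψ B) (g4Seven Ψ B)

end DY
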