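import Mathlib

/-!
# Real inequalities for GAP4, labels (2,m,3), case `φ n ≥ 0` (MP_d13a5e_al)

`p, q, y` are the coordinates of the steeper root in the chamber of the sector of `F` at the vertex `t ∩ d2`;
`V = p - τ q + δ y` is the value at the corner.
-/

set_option autoImplicit false

namespace DY.G4B

/-- odd sector, `y ≤ p` -/
theorem oddA {s τ δ p q y k α : ℝ} (hα : α = 1 - s * τ / 2) (hk : k = 1 - s ^ 2 / 4)
    (hN : p ^ 2 + q ^ 2 + y ^ 2 - s * p * q - p * y = 1) (hB : 2 * q < s * p) (hy : 1 ≤ y) (hyp : y ≤ p)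
    (hτ : 0 < τ) (h0 : 0 ≤ δ) (hα0 : 0 < α) (h2 : k ≤ α) (h3 : k ≤ (α + δ) ^ 2)
    (h4 : k ≤ 1 / 2) (hk0 : 0 ≤ k) : 1 ≤ p - τ * q + δ * y := by
  by_contra hV
  rw [not_le] at hV
  set L : ℝ := 1 - α * p - δ * y with hL
  have e1 : τ * (s * p - 2 * q) < 2 * L := by
    rw [hL, hα]
    nlinarith only [hV]
  have hD : 0 < s * p - 2 * q := by linarith only [hB]
  have e2 : 0 < τ * (s * p - 2 * q) := mul_pos hτ hD
  have hL0 : 0 < L := by linarith only [e1, e2]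
  have e3 : (τ * (s * p - 2 * q)) ^ 2 < (2 * L) ^ 2 := by
    apply pow_lt_pow_left₀ e1 e2.le (by norm_num)
  have e4 : (s * p - 2 * q) ^ 2 = 4 * (1 + y * (p - y) - k * p ^ 2) := by
    rw [hk]
    linear_combination 4 * hN
  have e5 : τ ^ 2 * (1 + y * (p - y) - k * p ^ 2) < L ^ 2 := by
    rw [mul_pow, e4] at e3
    linarith only [e3]
  set M : ℝ := 1 - α - δ with hM
  have e6 : L + α * (p - y) + (α + δ) * (y - 1) = M := by
    rw [hL, hM]
    ring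
  have f1 : 0 ≤ p - y := by linarith only [hyp]
  have f2 : 0 ≤ y - 1 := by linarith only [hy]
  have f3 : 0 ≤ α * (p - y) := mul_nonneg hα0.le f1
  have f4 : 0 ≤ (α + δ) * (y - 1) := mul_nonneg (by linarith only [h0, hα0]) f2
  have hM0 : 0 < M := by linarith only [hL0, f3, f4]
  have hd1 : δ < 1 := by linarith
  -- the coefficients
  have c11 : 0 ≤ δ * (s * τ - δ) := mul_nonneg h0 (by nlinarith only [hα, hB, hy, hyp, hτ, h0, hα0, hV])
  have c22 : 0 ≤ (1 - δ) * (α - k * (1 - δ)) := by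
    refine mul_nonneg (by linarith only [hd1]) ?_
    nlinarith only [h0, h2, hk0]
  have c33 : 0 ≤ (α + δ) ^ 2 - k := by linarith only [h3]
  have c12 : 0 ≤ (1 - δ + α) / 2 - k * (1 - δ) := by nlinarith only [hM0, hd1, c22]
  have c13 : 0 ≤ α + δ - k := by linarith only [h0, h2]
  have c23 : 0 ≤ α * (α + δ) + (α + 1 - δ) / 2 - α - k * (1 - δ) := by
    have g1 : 0 ≤ (1 - δ - α) * (1 / 2 - k) := mul_nonneg (by linarith only [hM0]) (by linarith only [h4])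
    have g2 : 0 ≤ α * (α + δ - k) := mul_nonneg hα0.le c13
    nlinarith only [g1, g2]
  have key : M ^ 2 * (τ ^ 2 * (1 + y * (p - y) - k * p ^ 2) - L ^ 2) =
      (δ * (s * τ - δ)) * L ^ 2 + τ ^ 2 * ((1 - δ) * (α - k * (1 - δ))) * (p - y) ^ 2 +
        τ ^ 2 * ((α + δ) ^ 2 - k) * (y - 1) ^ 2 +
        2 * τ ^ 2 * ((1 - δ + α) / 2 - k * (1 - δ)) * (L * (p - y)) +
        2 * τ ^ 2 * (α + δ - k) * (L * (y - 1)) +
        2 * τ ^ 2 * (α * (α + δ) + (α + 1 - δ) / 2 - α - k * (1 - δ)) * ((p - y) * (y - 1)) := by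
    rw [hL, hM, hα, hk]
    ring
  have g1 := mul_nonneg c11 (sq_nonneg L)
  have g2 := mul_nonneg (mul_nonneg (sq_nonneg τ) c22) (sq_nonneg (p - y))
  have g3 := mul_nonneg (mul_nonneg (sq_nonneg τ) c33) (sq_nonneg (y - 1))
  have g4 := mul_nonneg (mul_nonneg (sq_nonneg τ) c12) (mul_nonneg hL0.le f1)
  have g5 := mul_nonneg (mul_nonneg (sq_nonneg τ) c13) (mul_nonneg hL0.le f2)
  have g6 := mul_nonneg (mul_nonneg (sq_nonneg τ) c23) (mul_nonneg f1 f2)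
  have g7 : M ^ 2 * (τ ^ 2 * (1 + y * (p - y) - k * p ^ 2) - L ^ 2) < 0 :=
    mul_neg_of_pos_of_neg (pow_pos hM0 2) (by linarith only [e5])
  linarith only [key, g1, g2, g3, g4, g5, g6, g7]

/-- odd sector, `y ≤ p - 1` -/
theorem oddB {s τ δ p q y k α : ℝ} (hα : α = 1 - s * τ / 2) (hk : k = 1 - s ^ 2 / 4)
    (hN : p ^ 2 + q ^ 2 + y ^ 2 - s * p * q - p * y = 1) (hB : 2 * q < s * p) (hy : 1 ≤ y) (hyp : y ≤ p - 1)
    (hτ : 0 < τ) (h0 : 0 ≤ δ) (hα0 : 0 < α) (h2 : k ≤ α) (h3 : (1 - 2 * α - δ) ^ 2 ≤ τ ^ 2 * (2 - 4 * k))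
    (h4 : k ≤ 1 / 4) (hk0 : 0 ≤ k)
    (h5 : 0 ≤ 2 * α * (α + δ) - α + (1 - δ) / 2 - k * (1 - δ ^ 2)) : 1 ≤ p - τ * q + δ * y := by
  by_contra hV
  rw [not_le] at hV
  set L : ℝ := 1 - α * p - δ * y with hL
  have e1 : τ * (s * p - 2 * q) < 2 * L := by
    rw [hL, hα]
    nlinarith only [hV]
  have hD : 0 < s * p - 2 * q := by linarith only [hB]
  have e2 : 0 < τ * (s * p - 2 * q) := mul_pos hτ hD
  have hL0 : 0 < L := by linarith only [e1, e2]
  have e3 : (τ * (s * p - 2 * q)) ^ 2 < (2 * L) ^ 2 := by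
    apply pow_lt_pow_left₀ e1 e2.le (by norm_num)
  have e4 : (s * p - 2 * q) ^ 2 = 4 * (1 + y * (p - y) - k * p ^ 2) := by
    rw [hk]
    linear_combination 4 * hN
  have e5 : τ ^ 2 * (1 + y * (p - y) - k * p ^ 2) < L ^ 2 := by
    rw [mul_pow, e4] at e3
    linarith only [e3]
  set M : ℝ := 1 - 2 * α - δ with hM
  have e6 : L + α * (p - y - 1) + (α + δ) * (y - 1) = M := by
    rw [hL, hM]
    ring
  have f1 : 0 ≤ p - y - 1 := by linarith only [hyp]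
  have f2 : 0 ≤ y - 1 := by linarith only [hy]
  have f3 : 0 ≤ α * (p - y - 1) := mul_nonneg hα0.le f1
  have f4 : 0 ≤ (α + δ) * (y - 1) := mul_nonneg (by linarith only [h0, hα0]) f2
  have hM0 : 0 < M := by linarith only [hL0, f3, f4]
  have hd1 : δ < 1 := by linarith
  -- the coefficients
  have c22 : 0 ≤ (1 - δ) * (α - k * (1 - δ)) := by
    refine mul_nonneg (by linarith only [hd1]) ?_
    nlinarith only [h0, h2, hk0]
  have c33 : 0 ≤ (1 + δ) * (α + δ - k * (1 + δ)) := by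
    refine mul_nonneg (by linarith only [h0]) ?_
    nlinarith only [h0, h2, h4]
  have c12 : 0 ≤ (1 - δ) * (1 / 2 - 2 * k) + α := by
    have := mul_nonneg (by linarith only [hd1] : 0 ≤ 1 - δ) (by linarith only [h4] : 0 ≤ 1 / 2 - 2 * k)
    linarith only [hα0, this]
  have c13 : 0 ≤ α + δ + (1 + δ) * (1 / 2 - 2 * k) := by
    have := mul_nonneg (by linarith only [h0] : 0 ≤ 1 + δ) (by linarith only [h4] : 0 ≤ 1 / 2 - 2 * k)
    linarith only [h0, hα0, this]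
  have key : M ^ 2 * (τ ^ 2 * (1 + y * (p - y) - k * p ^ 2) - L ^ 2) =
      (τ ^ 2 * (2 - 4 * k) - M ^ 2) * L ^ 2 + τ ^ 2 * ((1 - δ) * (α - k * (1 - δ))) * (p - y - 1) ^ 2 +
        τ ^ 2 * ((1 + δ) * (α + δ - k * (1 + δ))) * (y - 1) ^ 2 +
        2 * τ ^ 2 * ((1 - δ) * (1 / 2 - 2 * k) + α) * (L * (p - y - 1)) +
        2 * τ ^ 2 * (α + δ + (1 + δ) * (1 / 2 - 2 * k)) * (L * (y - 1)) +
        2 * τ ^ 2 * (2 * α * (α + δ) - α + (1 - δ) / 2 - k * (1 - δ ^ 2)) * ((p - y - 1) * (y - 1)) := by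
    rw [hL, hM]
    ring
  have g1 := mul_nonneg (by linarith only [h3] : 0 ≤ τ ^ 2 * (2 - 4 * k) - M ^ 2) (sq_nonneg L)
  have g2 := mul_nonneg (mul_nonneg (sq_nonneg τ) c22) (sq_nonneg (p - y - 1))
  have g3 := mul_nonneg (mul_nonneg (sq_nonneg τ) c33) (sq_nonneg (y - 1))
  have g4 := mul_nonneg (mul_nonneg (sq_nonneg τ) c12) (mul_nonneg hL0.le f1)
  have g5 := mul_nonneg (mul_nonneg (sq_nonneg τ) c13) (mul_nonneg hL0.le f2)
  have g6 := mul_nonneg (mul_nonneg (sq_nonneg τ) h5) (mul_nonneg f1 f2)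
  have g7 : M ^ 2 * (τ ^ 2 * (1 + y * (p - y) - k * p ^ 2) - L ^ 2) < 0 :=
    mul_neg_of_pos_of_neg (pow_pos hM0 2) (by linarith only [e5])
  linarith only [g1, g2, g3, g4, g5, g6, g7]

/-- even sector; `P = s p`, `α = (1 - s τ / 2) / s`, `δ' = δ - τ / 2`, `k = (1 - s^2/4)/s^2` -/
theorem evenA {s τ δ p q y k α : ℝ} (hα : s * α = 1 - s * τ / 2) (hk : s ^ 2 * k = 1 - s ^ 2 / 4)
    (hN : p ^ 2 + q ^ 2 + y ^ 2 - s * p * q - q * y = 1) (hB : 2 * q < s * p + y) (hy : 1 ≤ y)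
    (hyp : y ≤ s * p - 1) (hτ : 0 < τ) (hα0 : 0 < α) (h0 : 0 ≤ α + δ)
    (c11 : (1 - 2 * α - δ) ^ 2 ≤ τ ^ 2 * (5 / 4 - 4 * k))
    (hc : 2 * α + δ < 1 → 0 ≤ α ^ 2 / 4 + α * (1 - δ) / 2 - k * (1 - δ) ^ 2 ∧
      0 ≤ (α + δ) ^ 2 - k * (1 + δ) ^ 2 + (1 + δ) * (1 - α) / 2 - 3 / 4 * (1 - α) ^ 2 ∧
      0 ≤ 3 / 4 * α + (1 - δ) * (1 / 4 - 2 * k) ∧
      0 ≤ α + δ + (1 + δ) * (1 / 4 - 2 * k) - (1 - α) / 4 ∧
      0 ≤ α * (α + δ) - k * (1 - δ ^ 2) + ((1 - δ) * (1 - α) + α * (1 + δ)) / 4 - 3 / 4 * α * (1 - α)) :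
    1 ≤ p - τ * q + (δ + τ / 2) * y := by
  by_contra hV
  rw [not_le] at hV
  obtain ⟨P, hP⟩ : ∃ P, P = s * p := ⟨_, rfl⟩
  have ep : α * P = p - s * τ / 2 * p := by
    rw [hP]
    linear_combination p * hα
  set L : ℝ := 1 - α * P - δ * y with hL
  have e1 : τ * (P + y - 2 * q) < 2 * L := by
    rw [hL, ep, hP]
    nlinarith only [hV]
  have hD : 0 < P + y - 2 * q := by linarith only [hB, hP]
  have e2 : 0 < τ * (P + y - 2 * q) := mul_pos hτ hD
  have hL0 : 0 < L := by linarith only [e1, e2]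
  have e3 : (τ * (P + y - 2 * q)) ^ 2 < (2 * L) ^ 2 := by
    apply pow_lt_pow_left₀ e1 e2.le (by norm_num)
  have e4 : (P + y - 2 * q) ^ 2 = 4 * (1 + P * y / 2 - 3 / 4 * y ^ 2 - k * P ^ 2) := by
    rw [hP]
    linear_combination 4 * hN + 4 * p ^ 2 * hk
  have e5 : τ ^ 2 * (1 + P * y / 2 - 3 / 4 * y ^ 2 - k * P ^ 2) < L ^ 2 := by
    rw [mul_pow, e4] at e3
    linarith only [e3]
  set M : ℝ := 1 - 2 * α - δ with hM
  have e6 : L + α * (P - y - 1) + (α + δ) * (y - 1) = M := by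
    rw [hL, hM]
    ring
  have f1 : 0 ≤ P - y - 1 := by linarith only [hyp, hP]
  have f2 : 0 ≤ y - 1 := by linarith only [hy]
  have f3 : 0 ≤ α * (P - y - 1) := mul_nonneg hα0.le f1
  have f4 : 0 ≤ (α + δ) * (y - 1) := mul_nonneg h0 f2
  have hM0 : 0 < M := by linarith only [hL0, f3, f4]
  obtain ⟨c22, c33, c12, c13, c23⟩ := hc (by linarith only [hM0])
  have key : M ^ 2 * (τ ^ 2 * (1 + P * y / 2 - 3 / 4 * y ^ 2 - k * P ^ 2) - L ^ 2) =
      (τ ^ 2 * (5 / 4 - 4 * k) - M ^ 2) * L ^ 2 +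
        τ ^ 2 * (α ^ 2 / 4 + α * (1 - δ) / 2 - k * (1 - δ) ^ 2) * (P - y - 1) ^ 2 +
        τ ^ 2 * ((α + δ) ^ 2 - k * (1 + δ) ^ 2 + (1 + δ) * (1 - α) / 2 - 3 / 4 * (1 - α) ^ 2) * (y - 1) ^ 2 +
        2 * τ ^ 2 * (3 / 4 * α + (1 - δ) * (1 / 4 - 2 * k)) * (L * (P - y - 1)) +
        2 * τ ^ 2 * (α + δ + (1 + δ) * (1 / 4 - 2 * k) - (1 - α) / 4) * (L * (y - 1)) +
        2 * τ ^ 2 * (α * (α + δ) - k * (1 - δ ^ 2) + ((1 - δ) * (1 - α) + α * (1 + δ)) / 4 - 3 / 4 * α * (1 - α)) *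
          ((P - y - 1) * (y - 1)) := by
    rw [hL, hM]
    ring
  have g1 := mul_nonneg (by linarith only [c11] : 0 ≤ τ ^ 2 * (5 / 4 - 4 * k) - M ^ 2) (sq_nonneg L)
  have g2 := mul_nonneg (mul_nonneg (sq_nonneg τ) c22) (sq_nonneg (P - y - 1))
  have g3 := mul_nonneg (mul_nonneg (sq_nonneg τ) c33) (sq_nonneg (y - 1))
  have g4 := mul_nonneg (mul_nonneg (sq_nonneg τ) c12) (mul_nonneg hL0.le f1)
  have g5 := mul_nonneg (mul_nonneg (sq_nonneg τ) c13) (mul_nonneg hL0.le f2)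
  have g6 := mul_nonneg (mul_nonneg (sq_nonneg τ) c23) (mul_nonneg f1 f2)
  have g7 : M ^ 2 * (τ ^ 2 * (1 + P * y / 2 - 3 / 4 * y ^ 2 - k * P ^ 2) - L ^ 2) < 0 :=
    mul_neg_of_pos_of_neg (pow_pos hM0 2) (by linarith only [e5])
  linarith only [g1, g2, g3, g4, g5, g6, g7]

/-- the parameters of the even sector -/
theorem parE {s τ d a K : ℝ} (h1 : 1.8477 ≤ s) (h2 : s ≤ 2) (h3 : 2.5 - 0.875 * s ≤ τ)
    (h4 : 3.695 - 1.5 * s ≤ τ) (h5 : 2 * τ ≤ s) (hd : d = τ * (s ^ 2 - 1 / 2) - s - (2.87 - 1.3 * s))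
    (ha : a = 1 - s * τ / 2) (hK : K = 1 - s ^ 2 / 4) :
    0.31 ≤ d ∧ -0.5 ≤ s - 2 * a - s * d ∧ s - 2 * a - s * d ≤ 1 ∧ K ≤ a ∧
      -0.03 ≤ 0.5 * s * d - 0.25 * s + 0.75 * a ∧ 0 ≤ 1.75 * a + s * (1.25 * d - 0.5) ∧ 0.78 ≤ a + s * d := by
  obtain ⟨v, hv⟩ : ∃ v, v = 2 - s := ⟨_, rfl⟩
  obtain ⟨w, hw⟩ : ∃ w, w = τ - 0.75 - 0.875 * v := ⟨_, rfl⟩
  have hs : s = 2 - v := by linarith only [hv]
  have ht : τ = 0.75 + 0.875 * v + w := by linarith only [hw]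
  have v1 : 0 ≤ v := by linarith only [h2, hs]
  have v2 : v ≤ 0.1523 := by linarith only [h1, hs]
  have w1 : 0 ≤ w := by linarith only [h3, hs, ht]
  have w2 : 0.625 * v - 0.055 ≤ w := by linarith only [h4, hs, ht]
  have w3 : 2 * w ≤ 0.5 - 2.75 * v := by linarith only [h5, hs, ht]
  clear hv hw h1 h2 h3 h4 h5
  have m1 := mul_nonneg v1 w1
  have m2 := mul_nonneg v1 (sub_nonneg.2 v2)
  have m3 := mul_nonneg w1 (sub_nonneg.2 v2)
  have m4 := mul_nonneg (mul_nonneg v1 v1) w1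
  have m5 := mul_nonneg (mul_nonneg v1 v1) v1
  have m6 := mul_nonneg (mul_nonneg v1 v1) (sub_nonneg.2 v2)
  have m7 := mul_nonneg (mul_nonneg v1 w1) (sub_nonneg.2 v2)
  subst hs ht hd ha hK
  refine ⟨?_, ?_, ?_, ?_, ?_, ?_, ?_⟩
  · nlinarith only [w2, m2, m3, m4]
  · nlinarith only [w2, w3, m5, m6, m7]
  · nlinarith only [w2, m2, m3, m4]
  · nlinarith only [w3, m1]
  · nlinarith only [w2, m2, m3, m4]
  · nlinarith only [w2, m2, m3, m4]
  · nlinarith only [w2, m2, m3, m4]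

theorem parE2 {s d a K : ℝ} (s1 : 1.8477 ≤ s) (s2 : s ≤ 2) (d0 : 0.31 ≤ d) (d1 : d < 1) (a0 : 0 ≤ a) (a1 : a ≤ 0.35)
    (K0 : 0 ≤ K) (K1 : K ≤ 0.1466) (X1 : -0.03 ≤ 0.5 * s * d - 0.25 * s + 0.75 * a) (X3 : 0.78 ≤ a + s * d) :
    0 ≤ (a + s * d) ^ 2 - K * (1 + d) ^ 2 + (s - a) * (0.5 * s * d - 0.25 * s + 0.75 * a) := by
  have f1 : -0.06 ≤ (s - a) * (0.5 * s * d - 0.25 * s + 0.75 * a) := by
    have := mul_nonneg (by linarith only [s1, a1] : 0 ≤ s - a) (by linarith only [X1] : 0 ≤ 0.5 * s * d - 0.25 * s + 0.75 * a + 0.03)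
    linarith only [s2, a0, this]
  have f2 : K * (1 + d) ^ 2 ≤ 0.1466 * (1 + d) ^ 2 := mul_le_mul_of_nonneg_right K1 (sq_nonneg _)
  rcases le_total d 0.6 with h | h
  · have f3 : 0.78 ^ 2 ≤ (a + s * d) ^ 2 := pow_le_pow_left₀ (by norm_num) X3 2
    have f4 : (1 + d) ^ 2 ≤ 1.6 ^ 2 := pow_le_pow_left₀ (by linarith only [d0]) (by linarith only [h]) 2
    norm_num at f3 f4
    linarith only [f1, f2, f3, f4]
  · have f3 : 1.84 * d ≤ a + s * d := by
      have := mul_nonneg (by linarith only [s1] : 0 ≤ s - 1.84) (by linarith only [h] : 0 ≤ d)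
      linarith only [a0, this]
    have f4 : (1.84 * d) ^ 2 ≤ (a + s * d) ^ 2 := pow_le_pow_left₀ (by linarith only [h]) f3 2
    have f5 : 0.6 * d ≤ d * d := mul_le_mul_of_nonneg_right h (by linarith only [h])
    nlinarith only [f1, f2, h, f3]

/-- even sector, all parameters -/
theorem evenB {s τ p q y : ℝ} (h1 : 1.8477 ≤ s) (h2 : s ≤ 2) (h3 : 2.5 - 0.875 * s ≤ τ)
    (h4 : 3.695 - 1.5 * s ≤ τ) (h5 : 2 * τ ≤ s) (h6 : s * τ < 2)
    (hN : p ^ 2 + q ^ 2 + y ^ 2 - s * p * q - q * y = 1) (hB : 2 * q < s * p + y) (hy : 1 ≤ y)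
    (hyp : y ≤ s * p - 1) : 1 ≤ p - τ * q + (s ^ 2 * τ - s - (2.87 - 1.3 * s)) * y := by
  obtain ⟨d, hd⟩ : ∃ d, d = τ * (s ^ 2 - 1 / 2) - s - (2.87 - 1.3 * s) := ⟨_, rfl⟩
  obtain ⟨a, ha⟩ : ∃ a, a = 1 - s * τ / 2 := ⟨_, rfl⟩
  obtain ⟨K, hK⟩ : ∃ K, K = 1 - s ^ 2 / 4 := ⟨_, rfl⟩
  obtain ⟨d0, M1, M2, aK, X1, X2, X3⟩ := parE h1 h2 h3 h4 h5 hd ha hK
  have a0 : 0 < a := by linarith only [h6, ha]
  have K0 : 0 ≤ K := by
    rw [hK]
    nlinarith only [h1, h2]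
  have K1 : K ≤ 0.1466 := by
    rw [hK]
    nlinarith only [h1]
  have sK : 0.75 * s ^ 2 - 2 = s ^ 2 / 4 - 2 * K := by
    rw [hK]
    ring
  have s0 : 0 < s := by linarith only [M1, X3, a0]
  have ss : 3.41 ≤ s ^ 2 := by nlinarith only [K1, sK]
  have ts : 0.75 ≤ τ := by linarith only [h2, h3]
  have key := evenA (s := s) (τ := τ) (δ := d) (p := p) (q := q) (y := y) (k := K / s ^ 2) (α := a / s)
    (by field_simp; linarith only [ha]) (by field_simp; linarith only [sK]) hN hB hy hyp (by linarith only [ts]) (by positivity)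
    (by
      have : 0 ≤ a / s := by positivity
      linarith only [d0, this])
    (by
      have e1 : (1 - 2 * (a / s) - d) ^ 2 = (s - 2 * a - s * d) ^ 2 / s ^ 2 := by
        field_simp
      have e2 : τ ^ 2 * (5 / 4 - 4 * (K / s ^ 2)) = τ ^ 2 * (5 / 4 * s ^ 2 - 4 * K) / s ^ 2 := by
        field_simp
      rw [e1, e2]
      apply div_le_div_of_nonneg_right _ (by positivity)
      have e3 : (s - 2 * a - s * d) ^ 2 ≤ 1 := by
        generalize s - 2 * a - s * d = z at M1 M2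
        clear X1 X2 X3
        nlinarith only [M1, M2]
      have e4 : 0.75 ^ 2 ≤ τ ^ 2 := pow_le_pow_left₀ (by norm_num) ts 2
      have e5 : 3.5 ≤ 5 / 4 * s ^ 2 - 4 * K := by linarith only [K1, sK]
      have e6 : 0.75 ^ 2 * 3.5 ≤ τ ^ 2 * (5 / 4 * s ^ 2 - 4 * K) :=
        mul_le_mul e4 e5 (by norm_num) (by positivity)
      norm_num at e6
      linarith only [e3, e6])
    (by
      intro hM
      have hM1 : 2 * a + s * d < s := by
        have := mul_lt_mul_of_pos_left hM s0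
        have e : s * (2 * (a / s) + d) = 2 * a + s * d := by
          field_simp
        linarith only [this, e]
      have hd1 : d < 1 := by
        have : s * d < s * 1 := by linarith only [a0, hM1]
        exact lt_of_mul_lt_mul_left this s0.le
      have a1 : a ≤ 0.35 := by
        have := mul_le_mul h1 ts (by norm_num) s0.le
        norm_num at this
        linarith only [ha, this]
      clear M1 M2 hM
      refine ⟨?_, ?_, ?_, ?_, ?_⟩
      · have e : (a / s) ^ 2 / 4 + a / s * (1 - d) / 2 - K / s ^ 2 * (1 - d) ^ 2 =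
          (a ^ 2 / 4 + s * a * (1 - d) / 2 - K * (1 - d) ^ 2) / s ^ 2 := by
          field_simp
        rw [e]
        apply div_nonneg _ (by positivity)
        have f1 : K * (1 - d) ^ 2 ≤ a * (1 - d) ^ 2 := mul_le_mul_of_nonneg_right aK (sq_nonneg _)
        have f2 : 0 ≤ a * (1 - d) * (s / 2 - (1 - d)) :=
          mul_nonneg (mul_nonneg a0.le (by linarith only [hd1])) (by linarith only [h4, h5, d0])
        have f3 := sq_nonneg a
        linarith only [f1, f2, f3]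
      · have e : (a / s + d) ^ 2 - K / s ^ 2 * (1 + d) ^ 2 + (1 + d) * (1 - a / s) / 2 -
            3 / 4 * (1 - a / s) ^ 2 =
          ((a + s * d) ^ 2 - K * (1 + d) ^ 2 + (s - a) * (0.5 * s * d - 0.25 * s + 0.75 * a)) / s ^ 2 := by
          field_simp
          ring
        rw [e]
        exact div_nonneg (parE2 h1 h2 d0 hd1 a0.le a1 K0 K1 X1 X3) (by positivity)
      · have e : 3 / 4 * (a / s) + (1 - d) * (1 / 4 - 2 * (K / s ^ 2)) =
          (3 / 4 * s * a + (1 - d) * (s ^ 2 / 4 - 2 * K)) / s ^ 2 := by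
          field_simp
        rw [e]
        apply div_nonneg _ (by positivity)
        have f1 : 0 ≤ s ^ 2 / 4 - 2 * K := by linarith only [K1, sK]
        have f2 := mul_nonneg (by linarith only [hd1] : 0 ≤ 1 - d) f1
        have f3 := mul_nonneg s0.le a0.le
        linarith only [f2, f3]
      · have e : a / s + d + (1 + d) * (1 / 4 - 2 * (K / s ^ 2)) - (1 - a / s) / 4 =
          (s * a + s ^ 2 * d + (1 + d) * (s ^ 2 / 4 - 2 * K) - (s ^ 2 - s * a) / 4) / s ^ 2 := by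
          field_simp
        rw [e]
        apply div_nonneg _ (by positivity)
        have f1 : 0 ≤ s ^ 2 / 4 - 2 * K := by linarith only [K1, sK]
        have f2 := mul_nonneg (by linarith only [d0] : 0 ≤ 1 + d) f1
        have f3 := mul_nonneg s0.le a0.le
        have f4 := mul_nonneg (sq_nonneg s) (by linarith only [d0] : 0 ≤ d - 1 / 4)
        linarith only [f2, f3, f4]
      · have e : a / s * (a / s + d) - K / s ^ 2 * (1 - d ^ 2) +
            ((1 - d) * (1 - a / s) + a / s * (1 + d)) / 4 - 3 / 4 * (a / s) * (1 - a / s) =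
          ((1 - d) * (s * (s - a) / 4 - K * (1 + d)) + a * (1.75 * a + s * (1.25 * d - 0.5))) / s ^ 2 := by
          field_simp
          ring
        rw [e]
        apply div_nonneg _ (by positivity)
        have f0 : 1.84 * 1.49 ≤ s * (s - a) := mul_le_mul (by linarith only [h4, h5]) (by linarith only [h4, h5, a1]) (by norm_num) s0.le
        have f00 : K * (1 + d) ≤ 0.1466 * 2 := mul_le_mul K1 (by linarith only [hd1]) (by linarith only [d0]) (by norm_num)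
        have f1 : 0 ≤ s * (s - a) / 4 - K * (1 + d) := by
          norm_num at f0 f00
          linarith only [f0, f00]
        have f2 := mul_nonneg (by linarith only [hd1] : 0 ≤ 1 - d) f1
        have f3 := mul_nonneg a0.le X2
        linarith only [f2, f3])
  have e : s ^ 2 * τ - s - (2.87 - 1.3 * s) = d + τ / 2 := by
    rw [hd]
    ring
  rw [e]
  exact key

end DY.G4B
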