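import Pool.Agent.Helper8.DY.G4Ba

/-!
# Real inequalities for GAP4, labels (2,m,3), case `φ n ≥ 0`: odd sectors (MP_d13a5e_al)
-/

set_option autoImplicit false

namespace DY.G4B

/-- the parameters of the odd sectors `j ≥ 9` -/
theorem parO {s τ D : ℝ} (h1 : 1.8477 ≤ s) (h2 : s ≤ 2) (h3 : 2.5 - 0.875 * s ≤ τ)
    (h4 : 3.695 - 1.5 * s ≤ τ) (h5 : 2 * τ ≤ s)
    (hD : (s + 2) * D = (s + 1) * ((s ^ 2 + s - 1) * τ - (s + 1)) - (s + 2) * (2.87 - 1.3 * s)) :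
    0 ≤ D ∧ 0.4 ≤ 1 - s * τ / 2 + D := by
  obtain ⟨v, hv⟩ : ∃ v, v = 2 - s := ⟨_, rfl⟩
  obtain ⟨w, hw⟩ : ∃ w, w = τ - 0.75 - 0.875 * v := ⟨_, rfl⟩
  have hs : s = 2 - v := by linarith only [hv]
  have ht : τ = 0.75 + 0.875 * v + w := by linarith only [hw]
  have v1 : 0 ≤ v := by linarith only [h2, hs]
  have v2 : v ≤ 0.1523 := by linarith only [h1, hs]
  have w1 : 0 ≤ w := by linarith only [h3, hw, hs]
  have w2 : 0.625 * v - 0.055 ≤ w := by linarith only [h4, hw, hs]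
  have w3 : 2 * w ≤ 0.5 - 2.75 * v := by linarith only [h5, hw, hs]
  clear hv hw h1 h2 h3 h4 h5
  have m1 := mul_nonneg v1 w1
  have m2 := mul_nonneg v1 (sub_nonneg.2 v2)
  have m3 := mul_nonneg w1 (sub_nonneg.2 v2)
  have m4 := mul_nonneg (mul_nonneg v1 v1) w1
  have m5 := mul_nonneg (mul_nonneg v1 v1) v1
  have m6 := mul_nonneg (mul_nonneg v1 v1) (sub_nonneg.2 v2)
  have m7 := mul_nonneg (mul_nonneg v1 w1) (sub_nonneg.2 v2)
  have s0 : 0 < s + 2 := by linarith only [hs, w2, w3]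
  constructor
  · have : 0 ≤ (s + 2) * D := by
      rw [hD, hs, ht]
      nlinarith only [m2, m3, m4, m6]
    exact nonneg_of_mul_nonneg_right this s0
  · have : 0 ≤ (s + 2) * (1 - s * τ / 2 + D - 0.4) := by
      have e : (s + 2) * (1 - s * τ / 2 + D - 0.4) = (s + 2) * (1 - s * τ / 2 - 0.4) + (s + 2) * D := by ring
      rw [e, hD, hs, ht]
      nlinarith only [w2, m2, m3, m4]
    have := nonneg_of_mul_nonneg_right this s0
    linarith only [this]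

/-- odd sectors `j ≥ 9` -/
theorem odd9 {s τ D p q y : ℝ} (h1 : 1.8477 ≤ s) (h2 : s ≤ 2) (h3 : 2.5 - 0.875 * s ≤ τ)
    (h4 : 3.695 - 1.5 * s ≤ τ) (h5 : 2 * τ ≤ s) (h6 : s * τ < 2)
    (hD : (s + 2) * D = (s + 1) * ((s ^ 2 + s - 1) * τ - (s + 1)) - (s + 2) * (2.87 - 1.3 * s))
    (hN : p ^ 2 + q ^ 2 + y ^ 2 - s * p * q - p * y = 1) (hB : 2 * q < s * p) (hy : 1 ≤ y)
    (hyp : y ≤ p) : 1 ≤ p - τ * q + D * y := by
  obtain ⟨D0, D1⟩ := parO h1 h2 h3 h4 h5 hD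
  have k1 : 1 - s ^ 2 / 4 ≤ 0.1466 := by nlinarith only [h1]
  have e1 : 0 ≤ s * (s - 2 * τ) := mul_nonneg (by linarith only [h4, h5]) (by linarith only [h5])
  refine oddA (k := 1 - s ^ 2 / 4) (α := 1 - s * τ / 2) rfl rfl hN hB hy hyp (by linarith only [h2, h4]) D0 (by linarith only [h6])
    (by linarith only [e1]) ?_ (by linarith only [k1]) (by nlinarith only [h1, h2])
  have : 0.4 ^ 2 ≤ (1 - s * τ / 2 + D) ^ 2 := pow_le_pow_left₀ (by norm_num) D1 2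
  norm_num at this
  linarith only [k1, this]

/-- the parameters of the sector `7`, `m ≥ 8` -/
theorem par7 {s τ D : ℝ} (h1 : 1.8477 ≤ s) (h2 : s ≤ 2) (h3 : 2.1422 - 0.714 * s ≤ τ)
    (h4 : 2.841 - 1.079 * s ≤ τ) (h5 : τ ≤ 2.4685 - 0.877 * s)
    (hD : (s + 2) * D = (s + 1) * ((s ^ 2 + s - 1) * τ - (s + 1)) - (s + 2) * (2.87 - 1.3 * s)) :
    0.08 ≤ D ∧ D ≤ 0.2 := by
  have s0 : 0 < s + 2 := by linarith only [h4, h5]
  obtain ⟨v, hv⟩ : ∃ v, v = 2 - s := ⟨_, rfl⟩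
  obtain ⟨w, hw⟩ : ∃ w, w = τ - 0.7142 - 0.714 * v := ⟨_, rfl⟩
  have hs : s = 2 - v := by linarith only [hv]
  have ht : τ = 0.7142 + 0.714 * v + w := by linarith only [hw]
  have v1 : 0 ≤ v := by linarith only [h2, hs]
  have v2 : v ≤ 0.1523 := by linarith only [h1, hs]
  have w1 : 0 ≤ w := by linarith only [h3, hs, ht]
  have w2 : 0.365 * v - 0.0312 ≤ w := by linarith only [h4, hs, ht]
  have w3 : w ≤ 0.0003 + 0.163 * v := by linarith only [h5, hw, hs]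
  clear hv hw h1 h2 h3 h4 h5
  have m1 := mul_nonneg v1 w1
  have m2 := mul_nonneg v1 (sub_nonneg.2 v2)
  have m3 := mul_nonneg w1 (sub_nonneg.2 v2)
  have m4 := mul_nonneg (mul_nonneg v1 v1) w1
  have m5 := mul_nonneg (mul_nonneg v1 v1) v1
  have m6 := mul_nonneg (mul_nonneg v1 v1) (sub_nonneg.2 v2)
  have m7 := mul_nonneg (mul_nonneg v1 w1) (sub_nonneg.2 v2)
  have m8 := mul_nonneg v1 (sub_nonneg.2 w3)
  have m9 := mul_nonneg v1 (sub_nonneg.2 w2)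
  constructor
  · have : 0 ≤ (s + 2) * (D - 0.08) := by
      have e : (s + 2) * (D - 0.08) = (s + 2) * D - (s + 2) * 0.08 := by ring
      rw [e, hD, hs, ht]
      nlinarith only [m3, m6, m8, m9]
    have := nonneg_of_mul_nonneg_right this s0
    linarith only [this]
  · have : 0 ≤ (s + 2) * (0.2 - D) := by
      have e : (s + 2) * (0.2 - D) = (s + 2) * 0.2 - (s + 2) * D := by ring
      rw [e, hD, hs, ht]
      nlinarith only [w3, m1, m8, m9]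
    have := nonneg_of_mul_nonneg_right this s0
    linarith only [this]

/-- bounds for `τ_7` -/
theorem tau7 {s τ : ℝ} (h1 : 1.8477 ≤ s) (h2 : s ≤ 2)
    (ht : τ * (s ^ 3 + s ^ 2 - 2 * s - 1) = s ^ 2 + s - 1) :
    2.1422 - 0.714 * s ≤ τ ∧ 2.841 - 1.079 * s ≤ τ ∧ τ ≤ 2.4685 - 0.877 * s := by
  obtain ⟨v, hv⟩ : ∃ v, v = 2 - s := ⟨_, rfl⟩
  have hs : s = 2 - v := by linarith only [hv]
  have v1 : 0 ≤ v := by linarith only [h2, hs]
  have v2 : v ≤ 0.1523 := by linarith only [h1, hs]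
  have m2 := mul_nonneg v1 (sub_nonneg.2 v2)
  have m5 := mul_nonneg (mul_nonneg v1 v1) v1
  have m6 := mul_nonneg (mul_nonneg v1 v1) (sub_nonneg.2 v2)
  have m7 := mul_nonneg (mul_nonneg v1 v1) (mul_nonneg v1 (sub_nonneg.2 v2))
  have m8 := mul_nonneg v1 (mul_nonneg (sub_nonneg.2 v2) (sub_nonneg.2 v2))
  clear hv h1 h2
  have D0 : 0 < s ^ 3 + s ^ 2 - 2 * s - 1 := by
    rw [hs]
    nlinarith only [m7, m8]
  have e : τ = (s ^ 2 + s - 1) / (s ^ 3 + s ^ 2 - 2 * s - 1) := by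
    rw [eq_div_iff D0.ne', ht]
  rw [e]
  refine ⟨?_, ?_, ?_⟩
  · rw [le_div_iff₀ D0, hs]
    nlinarith only [m7, m8]
  · rw [le_div_iff₀ D0, hs]
    nlinarith only [m7, m8]
  · rw [div_le_iff₀ D0, hs]
    nlinarith only [m7, m8]

/-- the sector `7`, `m ≥ 8`, `y ≤ p - 1` -/
theorem odd7b {s τ D p q y : ℝ} (h1 : 1.8477 ≤ s) (h2 : s ≤ 2)
    (ht : τ * (s ^ 3 + s ^ 2 - 2 * s - 1) = s ^ 2 + s - 1)
    (hD : (s + 2) * D = (s + 1) * ((s ^ 2 + s - 1) * τ - (s + 1)) - (s + 2) * (2.87 - 1.3 * s))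
    (hN : p ^ 2 + q ^ 2 + y ^ 2 - s * p * q - p * y = 1) (hB : 2 * q < s * p) (hy : 1 ≤ y)
    (hyp : y ≤ p - 1) : 1 ≤ p - τ * q + D * y := by
  obtain ⟨t1, t2, t3⟩ := tau7 h1 h2 ht
  obtain ⟨D0, D1⟩ := par7 h1 h2 t1 t2 t3 hD
  have k1 : 1 - s ^ 2 / 4 ≤ 0.1466 := by nlinarith only [h1]
  have k0 : 0 ≤ 1 - s ^ 2 / 4 := by nlinarith only [h1, h2]
  have e1 : 0 ≤ s * (s - 2 * τ) := mul_nonneg (by linarith only [t2, t3]) (by linarith only [t2, t3])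
  have e2 : 0.2 ≤ 1 - s * τ / 2 := by
    have := mul_nonneg (by linarith only [t2, t3] : 0 ≤ s) (by linarith only [t3] : 0 ≤ 2.4685 - 0.877 * s - τ)
    nlinarith only [k1, this]
  have e3 : 1 - s * τ / 2 ≤ 0.3 := by
    have := mul_nonneg (by linarith only [t2, t3] : 0 ≤ s) (by linarith only [t1] : 0 ≤ τ - (2.1422 - 0.714 * s))
    nlinarith only [t2, t3, this]
  have e4 : 0.714 ≤ τ := by linarith only [h2, t1]
  obtain ⟨α, hα⟩ : ∃ α, α = 1 - s * τ / 2 := ⟨_, rfl⟩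
  rw [← hα] at e2 e3
  obtain ⟨k, hk⟩ : ∃ k, k = 1 - s ^ 2 / 4 := ⟨_, rfl⟩
  rw [← hk] at k0 k1
  refine oddB (k := k) (α := α) hα hk hN hB hy hyp (by linarith only [e4]) (by linarith only [D0]) (by linarith only [e2])
    (by rw [hα, hk]; linarith only [e2, hα, k1, hk]) ?_ (by linarith only [k1]) k0 ?_
  · have f1 : (1 - 2 * α - D) ^ 2 ≤ 0.6 ^ 2 := by
      apply pow_le_pow_left₀ (by linarith only [D1, e3]) (by linarith only [D0, e2])
    have f2 : 0.714 ^ 2 ≤ τ ^ 2 := pow_le_pow_left₀ (by norm_num) e4 2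
    have f3 : 1.4 ≤ 2 - 4 * k := by linarith only [k1]
    have f4 : 0.714 ^ 2 * 1.4 ≤ τ ^ 2 * (2 - 4 * k) := mul_le_mul f2 f3 (by norm_num) (by positivity)
    norm_num at f1 f4
    linarith only [f1, f4]
  · have f1 : k * (1 - D ^ 2) ≤ 0.1466 * 1 := by
      apply mul_le_mul k1 (by nlinarith only []) (by nlinarith only [D0, D1]) (by norm_num)
    have f2 : 0.2 * 0.28 ≤ α * (α + D) := mul_le_mul e2 (by linarith only [D0, e2]) (by norm_num) (by linarith only [e2])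
    norm_num at f2
    linarith only [D1, e3, f1, f2]

/-- a lower bound -/
theorem par7F {s τ D : ℝ} (h1 : 1.8477 ≤ s) (h2 : s ≤ 2) (h3 : 2.1422 - 0.714 * s ≤ τ)
    (h4 : 2.841 - 1.079 * s ≤ τ) (h5 : τ ≤ 2.4685 - 0.877 * s)
    (hD : (s + 2) * D = (s + 1) * ((s ^ 2 + s - 1) * τ - (s + 1)) - (s + 2) * (2.87 - 1.3 * s)) :
    0 ≤ 2.2 * D + (s - 2 * τ) * (s * (s ^ 2 - 2)) - (1 - τ ^ 2) * (s ^ 2 - 2) ^ 2 ∧
      2.2 ≤ 2 * s ^ 2 - 2 * τ * (s * (s ^ 2 - 2)) := by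
  have s0 : 0 < s + 2 := by linarith only [h4, h5]
  obtain ⟨v, hv⟩ : ∃ v, v = 2 - s := ⟨_, rfl⟩
  obtain ⟨w, hw⟩ : ∃ w, w = τ - 0.7142 - 0.714 * v := ⟨_, rfl⟩
  have hs : s = 2 - v := by linarith only [hv]
  have ht : τ = 0.7142 + 0.714 * v + w := by linarith only [hw]
  have v1 : 0 ≤ v := by linarith only [h2, hs]
  have v2 : v ≤ 0.1523 := by linarith only [h1, hs]
  have w1 : 0 ≤ w := by linarith only [h3, hs, ht]
  have w2 : 0.365 * v - 0.0312 ≤ w := by linarith only [h4, hs, ht]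
  have w3 : w ≤ 0.0003 + 0.163 * v := by linarith only [h5, hw, hs]
  clear hv hw h1 h2 h3 h4 h5
  have m1 := mul_nonneg v1 w1
  have m2 := mul_nonneg v1 (sub_nonneg.2 v2)
  have m3 := mul_nonneg w1 (sub_nonneg.2 v2)
  have m4 := mul_nonneg (mul_nonneg v1 v1) w1
  have m5 := mul_nonneg (mul_nonneg v1 v1) v1
  have m6 := mul_nonneg (mul_nonneg v1 v1) (sub_nonneg.2 v2)
  have m7 := mul_nonneg (mul_nonneg v1 w1) (sub_nonneg.2 v2)
  have m8 := mul_nonneg v1 (sub_nonneg.2 w3)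
  have m9 := mul_nonneg v1 (sub_nonneg.2 w2)
  constructor
  · have f1 : 0.158 - 0.93 * v + 3.1 * w ≤ D := by
      have : 0 ≤ (s + 2) * (D - (0.158 - 0.93 * v + 3.1 * w)) := by
        have e : (s + 2) * (D - (0.158 - 0.93 * v + 3.1 * w)) =
          (s + 2) * D - (s + 2) * (0.158 - 0.93 * v + 3.1 * w) := by ring
        rw [e, hD, hs, ht]
        nlinarith only [m2, m3, m4]
      have := nonneg_of_mul_nonneg_right this s0
      linarith only [this]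
    have f2 : 0 ≤ 2.2 * (0.158 - 0.93 * v + 3.1 * w) + (s - 2 * τ) * (s * (s ^ 2 - 2)) -
        (1 - τ ^ 2) * (s ^ 2 - 2) ^ 2 := by
      rw [hs, ht]
      nlinarith only [w2, w3, m3, m4, m5]
    linarith only [f1, f2]
  · rw [hs, ht]
    nlinarith only [w3, m2, m6, m7]

/-- the sector `7`, `m ≥ 8`, `y = p` -/
theorem odd7a {s τ D p q : ℝ} (h1 : 1.8477 ≤ s) (h2 : s ≤ 2)
    (ht : τ * (s ^ 3 + s ^ 2 - 2 * s - 1) = s ^ 2 + s - 1)
    (hD : (s + 2) * D = (s + 1) * ((s ^ 2 + s - 1) * τ - (s + 1)) - (s + 2) * (2.87 - 1.3 * s))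
    (hN : p ^ 2 + q ^ 2 - s * p * q = 1) (hq : 0 ≤ q) (hC : s * q ≤ (s ^ 2 - 2) * p) (hp : 1 ≤ p) :
    1 ≤ p - τ * q + D * p := by
  obtain ⟨t1, t2, t3⟩ := tau7 h1 h2 ht
  obtain ⟨D0, D1⟩ := par7 h1 h2 t1 t2 t3 hD
  by_contra hV
  rw [not_le] at hV
  have s2 : 3.41 ≤ s ^ 2 := by nlinarith only [h1]
  have s3 : s ^ 2 ≤ 4 := by nlinarith only [h1, h2]
  have e4 : 0.714 ≤ τ := by linarith only [h2, t1]
  have e5 : τ ≤ 0.8483 := by linarith only [h1, t3]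
  have pq : q ≤ p := by
    have : s * q ≤ s * p := by
      have := mul_nonneg (by linarith only [hp] : 0 ≤ p) (by nlinarith only [t2, t3, s3] : 0 ≤ s - (s ^ 2 - 2))
      nlinarith only [hC, this]
    exact le_of_mul_le_mul_left this (by linarith only [h1])
  have V0 : 0 ≤ p - τ * q + D * p := by
    have := mul_nonneg (by linarith only [e5] : 0 ≤ 1 - τ) hq
    have := mul_nonneg (by linarith only [D0] : 0 ≤ D) (by linarith only [hp] : 0 ≤ p)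
    linarith
  have V1 : (p - τ * q + D * p) ^ 2 < 1 := by nlinarith only [hV, V0]
  have V2 : (2 * D + D ^ 2) * p ^ 2 + (s - 2 * τ * (1 + D)) * (p * q) - (1 - τ ^ 2) * q ^ 2 < 0 := by
    nlinarith
  -- the form is nonnegative
  have F1 : 0 ≤ (2 * D + D ^ 2) * s ^ 2 + (s - 2 * τ * (1 + D)) * (s * (s ^ 2 - 2)) -
      (1 - τ ^ 2) * (s ^ 2 - 2) ^ 2 := by
    obtain ⟨G1, G2⟩ := par7F h1 h2 t1 t2 t3 hD
    have a1 := mul_nonneg (by linarith only [D0] : 0 ≤ D) (by linarith only [G2] : 0 ≤ 2 * s ^ 2 - 2 * τ * (s * (s ^ 2 - 2)) - 2.2)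
    have a2 := mul_nonneg (sq_nonneg D) (sq_nonneg s)
    linarith only [G1, a1, a2]
  have F2 : 0 ≤ 2 * s * (2 * D + D ^ 2) + (s - 2 * τ * (1 + D)) * (s ^ 2 - 2) := by
    have a0 : τ * (s ^ 2 - 2) ≤ 0.8483 * 2 := mul_le_mul e5 (by linarith only [s3]) (by linarith only [s2]) (by norm_num)
    have a1 := mul_nonneg (by linarith only [D0] : 0 ≤ D) (by linarith only [t2, t3, a0] : 0 ≤ 4 * s - 2 * (τ * (s ^ 2 - 2)))
    have a2 := mul_nonneg (by linarith only [t2, t3] : 0 ≤ s - 2 * τ) (by linarith only [s2] : 0 ≤ s ^ 2 - 2)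
    have a3 := mul_nonneg (by linarith only [t2, t3] : 0 ≤ s) (sq_nonneg D)
    linarith only [a1, a2, a3]
  have u0 : 0 ≤ (s ^ 2 - 2) * p - s * q := by linarith only [hC]
  have g1 := mul_nonneg F1 (sq_nonneg q)
  have g2 := mul_nonneg F2 (mul_nonneg hq u0)
  have g3 := mul_nonneg (by nlinarith only [D0] : 0 ≤ 2 * D + D ^ 2) (sq_nonneg ((s ^ 2 - 2) * p - s * q))
  have g4 : (s ^ 2 - 2) ^ 2 * ((2 * D + D ^ 2) * p ^ 2 + (s - 2 * τ * (1 + D)) * (p * q) - (1 - τ ^ 2) * q ^ 2) < 0 :=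
    mul_neg_of_pos_of_neg (by nlinarith only [s2]) V2
  nlinarith only [g1, g2, g3, g4]

/-- the sector behind `V_2`, `m = 7`, `y ≤ p - 1` -/
theorem odd77 {s p q y : ℝ} (h0 : s ^ 3 - s ^ 2 - 2 * s + 1 = 0) (h1 : 1.8 ≤ s) (h2 : s ≤ 1.803)
    (hN : p ^ 2 + q ^ 2 + y ^ 2 - s * p * q - p * y = 1) (hB : 2 * q < s * p) (hy : 1 ≤ y)
    (hyp : y ≤ p - 1) : 1 ≤ p - s / 2 * q + ((s ^ 2 - 1) / 2 - 1 / 2 - 0.612) * y := by
  have s1 : 1.8019 ≤ s := by nlinarith only [h0, h1]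
  have s2 : s ≤ 1.802 := by nlinarith only [h0]
  have s3 : 3.2468 ≤ s ^ 2 := by nlinarith only [s1]
  have s4 : s ^ 2 ≤ 3.2473 := by nlinarith only [s1, s2]
  obtain ⟨D, hD⟩ : ∃ D, D = (s ^ 2 - 1) / 2 - 1 / 2 - 0.612 := ⟨_, rfl⟩
  rw [← hD]
  have D0 : 0 ≤ D := by linarith only [s3, hD]
  have D1 : D ≤ 0.012 := by linarith only [s4, hD]
  obtain ⟨k, hk⟩ : ∃ k, k = 1 - s ^ 2 / 4 := ⟨_, rfl⟩
  have k0 : 0.188 ≤ k := by linarith only [s4, hk]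
  have k1 : k ≤ 0.1883 := by linarith only [s3, hk]
  have hk' : k = 1 - s * (s / 2) / 2 := by
    rw [hk]
    ring
  refine oddB (k := k) (α := k) hk' hk hN hB hy hyp (by linarith only [s1]) D0 (by linarith only [k0])
    le_rfl ?_ (by linarith only [k1]) (by linarith only [k0]) ?_
  · have f1 : (1 - 2 * k - D) ^ 2 ≤ 0.63 ^ 2 := by
      apply pow_le_pow_left₀ (by linarith only [D1, k1]) (by linarith only [hD, hk'])
    have f2 : (s / 2) ^ 2 = s ^ 2 / 4 := by ring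
    have f3 : 0.81 * 1.2 ≤ s ^ 2 / 4 * (2 - 4 * k) :=
      mul_le_mul (by linarith only [k1, hk']) (by linarith only [k1]) (by norm_num) (by positivity)
    rw [f2]
    norm_num at f1 f3
    linarith only [f1, f3]
  · have f1 : k * (1 - D ^ 2) ≤ 0.1883 * 1 := by
      apply mul_le_mul k1 (by nlinarith only []) (by nlinarith only [s4, hD, D0]) (by norm_num)
    have f2 : 0 ≤ k * (k + D) := mul_nonneg (by linarith only [k0]) (by linarith only [hD, D0, hk])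
    linarith only [D1, k1, f1, f2]

end DY.G4B
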