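import Pool.Agent.Helper32.DY.Root
import Pool.Agent.Helper9.DY.NG
import Pool.Agent.Helper9.DY.K
import Pool.Agent.Helper9.DY.Sq
import Pool.Agent.Helper62.DY.CaseI
import Pool.Agent.Helper8.DY.G4Bb

/-!
# GAP4, labels (2,m,3): the sectors `j ≥ 7` (MP_d13a5e_al): preparations
-/

set_option autoImplicit false

namespace DY

open Set
open Pool.Agent.Helper32.DY (Two fm fw fe bf z1_nonneg z1_one fe_mem fe_z fe_n)
open Pool.Agent.Helper62.DY (RT rt_of_tri)

variable {E : Type*} [AddCommGroup E] [Module ℝ E]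
variable {Ψ : Set E} {B : E →ₗ[ℝ] E →ₗ[ℝ] ℝ} {ρ φ : E →ₗ[ℝ] ℝ} {t d1 d2 x x' : E}

/-- the two roots through `F` -/
theorem Xs.two8 {g x1 x2 g' x1' x2' : ℝ} (X : Xs Ψ B ρ φ t d1 d2 x x' g x1 x2 g' x1' x2') :
    Two (-B t d1) (-B t d2) (-B d1 d2) (fun g x1 x2 => g • t + x1 • d1 + x2 • d2 ∈ Ψ)
      (-φ d2) (φ d1) g' x1' x2' g x1 x2 where
  h := rt_of_tri X.L.tri
  hx := by
    show g' • t + x1' • d1 + x2' • d2 ∈ Ψ
    rw [← X.e']
    exact X.L.xm'
  hy := by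
    show g • t + x1 • d1 + x2 • d2 ∈ Ψ
    rw [← X.e]
    exact X.L.xm
  p1 := X.p1'
  v1 := X.p1
  p2 := X.p2'
  q2 := X.p2
  fx := by linarith [X.c'.fz]
  fy := by linarith [X.c.fz]
  hf := X.h1
  hκ := by linarith [X.h2]
  st := by linarith [X.st]
  hB := by
    have h := X.L.cxx.symm.nonpos X.L.tri.sys X.L.xm' X.L.xm
    rw [X.e, X.e', X.L.val_B] at h
    unfold bf
    linarith
  obt := X.c.obt

/-- no root of the plane of `t` and `d2` vanishes at `F` -/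
theorem Xs.fm_ne8 {g x1 x2 g' x1' x2' : ℝ} (X : Xs Ψ B ρ φ t d1 d2 x x' g x1 x2 g' x1' x2') (k : ℕ) :
    fm (-B t d2) (-φ d2) k ≠ 0 := by
  cases k with
  | zero =>
    show (1 : ℝ) ≠ 0
    exact one_ne_zero
  | succ k =>
    intro h0
    have h1 : -φ d2 * sq (-B t d2) (k + 1) - sq (-B t d2) k = 0 := h0
    have hR := rt_of_tri X.L.tri
    have hm := (Pool.Agent.Helper62.DY.RT.pencil hR k).1
    have hm' : (sq (-B t d2) k) • t + (0 : ℝ) • d1 + (sq (-B t d2) (k + 1)) • d2 ∈ Ψ := hm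
    have hφ : φ ((sq (-B t d2) k) • t + (0 : ℝ) • d1 + (sq (-B t d2) (k + 1)) • d2) = 0 := by
      rw [X.L.val_φ]
      linarith
    obtain ⟨γ, δ, h⟩ := X.L.sp _ hm'
    rw [hφ] at h
    replace h := h.trans (show γ • x + δ • x' + (0 : ℝ) • t = γ • x + δ • x' by rw [zero_smul, add_zero])
    have h3 : (sq (-B t d2) k) • t + (0 : ℝ) • d1 + (sq (-B t d2) (k + 1)) • d2 =
        (γ * g + δ * g') • t + (γ * x1 + δ * x1') • d1 + (γ * x2 + δ * x2') • d2 := by
      rw [h]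
      nth_rewrite 1 [X.e]
      nth_rewrite 1 [X.e']
      module
    obtain ⟨-, h2, -⟩ := X.L.tri.coordW h3
    have p1 := X.p1
    have v1 := X.p1'
    rcases X.L.cxx _ hm' γ δ h with (⟨h5, h6⟩ | ⟨h5, h6⟩ | ⟨h5, h6⟩) | (⟨h5, h6⟩ | ⟨h5, h6⟩ | ⟨h5, h6⟩)
    · rw [h5, h6] at h2
      linarith
    · rw [h5, h6] at h2
      linarith
    · nlinarith
    · have h7 : γ = 0 := by linarith
      have h8 : δ = -1 := by linarith
      rw [h7, h8] at h2
      linarith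
    · have h7 : γ = -1 := by linarith
      have h8 : δ = 0 := by linarith
      rw [h7, h8] at h2
      linarith
    · nlinarith

section cheb

variable {b : ℝ}

/-- half index -/
theorem sq_even8 (b : ℝ) (i : ℕ) : sq b (2 * i) = sq b i * (2 * sq b (i + 1) - 2 * b * sq b i) ∧
    sq b (2 * i + 1) = sq b (i + 1) ^ 2 - sq b i ^ 2 := by
  induction i with
  | zero =>
    constructor
    · show (0 : ℝ) = 0 * _
      ring
    · show (1 : ℝ) = 1 ^ 2 - 0 ^ 2
      ring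
  | succ i ih =>
    have e1 : sq b (2 * (i + 1)) = 2 * b * sq b (2 * i + 1) - sq b (2 * i) := rfl
    have e2 : sq b (2 * (i + 1) + 1) = 2 * b * sq b (2 * (i + 1)) - sq b (2 * i + 1) := rfl
    have e3 : sq b (i + 1 + 1) = 2 * b * sq b (i + 1) - sq b i := rfl
    constructor
    · rw [e1, ih.1, ih.2, e3]
      ring
    · rw [e2, e1, ih.1, ih.2, e3]
      ring

/-- the fan in closed form -/
theorem fe_closed8 (b v y g : ℝ) (i : ℕ) :
    fe 0 b (1 / 2) v y g (2 * i) = sq b i * (2 * sq b (i + 1) - 2 * b * sq b i) * g -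
        (2 * sq b i ^ 2 - (2 * b) ^ 2 * sq b i ^ 2 + 2 * b * sq b i * sq b (i + 1) - 1) * y + v * sq b i ^ 2 ∧
      fe 0 b (1 / 2) v y g (2 * i + 1) = (sq b (i + 1) ^ 2 - sq b i ^ 2) * g -
        sq b i * (2 * sq b (i + 1) - 2 * b * sq b i) * y + v * (sq b i * sq b (i + 1)) := by
  induction i with
  | zero =>
    constructor
    · show y = 0 * _ * g - (2 * 0 ^ 2 - (2 * b) ^ 2 * 0 ^ 2 + 2 * b * 0 * _ - 1) * y + v * 0 ^ 2
      ring
    · show g = (1 ^ 2 - 0 ^ 2) * g - 0 * _ * y + v * (0 * _)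
      ring
  | succ i ih =>
    have w1 : fw 0 (1 / 2) (2 * i + 1) = 1 := by
      unfold fw
      rw [if_neg (by omega)]
      norm_num
    have w2 : fw 0 (1 / 2) (2 * i + 2) = 0 := by
      unfold fw
      rw [if_pos (by omega)]
      norm_num
    have e1 : fe 0 b (1 / 2) v y g (2 * (i + 1)) = 2 * b * fe 0 b (1 / 2) v y g (2 * i + 1) +
      fw 0 (1 / 2) (2 * i + 1) * v - fe 0 b (1 / 2) v y g (2 * i) := rfl
    have e2 : fe 0 b (1 / 2) v y g (2 * (i + 1) + 1) = 2 * b * fe 0 b (1 / 2) v y g (2 * (i + 1)) +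
      fw 0 (1 / 2) (2 * i + 2) * v - fe 0 b (1 / 2) v y g (2 * i + 1) := rfl
    have e3 : sq b (i + 1 + 1) = 2 * b * sq b (i + 1) - sq b i := rfl
    have hn := sq_norm b i
    constructor
    · rw [e1, w1, ih.1, ih.2, e3]
      linear_combination (-v + 2 * y) * hn
    · rw [e2, w2, e1, w1, ih.1, ih.2, e3]
      linear_combination (-(2 * b) * (v - y)) * hn

end cheb

end DY
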