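import Pool.Agent.Helper8.DY.G4Bc

/-!
# GAP4, labels (2,m,3): even sectors `j ≥ 8` (MP_d13a5e_al)
-/

set_option autoImplicit false

namespace DY.G4B

open Pool.Agent.Helper32.DY (Two fm fw fe bf z1_nonneg z1_one fe_mem fe_z fe_n)
open Pool.Agent.Helper62.DY (RT rt_of_tri)

theorem fw_odd (i : ℕ) : fw 0 (1 / 2) (2 * i + 1) = 1 := by
  unfold fw
  rw [if_neg (by omega)]
  norm_num

theorem fw_even (i : ℕ) : fw 0 (1 / 2) (2 * i) = 0 := by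
  unfold fw
  rw [if_pos (by omega)]
  norm_num

theorem sq3 (b : ℝ) : sq b 3 = (2 * b) ^ 2 - 1 := by
  show 2 * b * (2 * b * 1 - 0) - 1 = _
  ring

theorem sq4 (b : ℝ) : sq b 4 = (2 * b) ^ 3 - 2 * (2 * b) := by
  show 2 * b * (2 * b * (2 * b * 1 - 0) - 1) - (2 * b * 1 - 0) = _
  ring

theorem sq7 (b : ℝ) : sq b 7 = (2 * b) ^ 6 - 5 * (2 * b) ^ 4 + 6 * (2 * b) ^ 2 - 1 := by
  have h := (sq_even8 b 3).2
  have e : sq b (2 * 3 + 1) = sq b 7 := rfl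
  have e4 : sq b (3 + 1) = sq b 4 := rfl
  rw [e, e4, sq3, sq4] at h
  rw [h]
  ring

/-- `m ≥ 8` -/
theorem s_ge {b : ℝ} (h2 : 1 ≤ sq b 2) (h3 : 1 ≤ sq b 3) (h7 : 1 ≤ sq b 7) :
    1.8477 ≤ 2 * b ∧ 0 ≤ (2 * b) ^ 4 - 4 * (2 * b) ^ 2 + 2 := by
  obtain ⟨s, hs⟩ : ∃ s, s = 2 * b := ⟨_, rfl⟩
  have e2 : sq b 2 = 2 * b := by
    show 2 * b * 1 - 0 = _
    ring
  rw [e2, ← hs] at h2
  rw [sq3, ← hs] at h3
  rw [sq7, ← hs] at h7
  rw [← hs]
  obtain ⟨T, hT⟩ : ∃ T, T = s ^ 2 := ⟨_, rfl⟩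
  have h4 : 0 ≤ (T - 1) * ((T - 2) ^ 2 - 2) := by
    rw [hT]
    linarith only [h7]
  have h5 : 0 < T - 1 := by
    rw [hT]
    linarith only [h3]
  have h6 : 0 ≤ (T - 2) ^ 2 - 2 := nonneg_of_mul_nonneg_right h4 h5
  have h8 : 1.4142 ≤ T - 2 := by
    have : 0 ≤ T - 2 := by
      rw [hT]
      linarith only [h3]
    nlinarith only [h5, h6]
  rw [hT] at h8 h6
  constructor
  · nlinarith only [h2, h8]
  · linarith only [h6]

section

variable {b : ℝ} {R : ℝ → ℝ → ℝ → Prop} {κ f g' x1' x2' g y x2 : ℝ}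

/-- `B(x, u_k) > 0` -/
theorem e_lt (T : Two 0 b (1 / 2) R κ f g' x1' x2' g y x2) {k : ℕ} (hm : 0 < fm b κ (k + 1))
    (hs : 0 < sq b (k + 1)) :
    fe 0 b (1 / 2) y x2 g (k + 2) < fe 0 b (1 / 2) y x2 g k := by
  have h1 : fe 0 b (1 / 2) y x2 g k - fe 0 b (1 / 2) y x2 g (k + 2) =
      fm b κ (k + 1) * (2 * 0 * y + 2 * b * x2 - 2 * g) + sq b (k + 1) *
        ((2 * x2 - 2 * b * g - 2 * (1 / 2) * y) - κ * (2 * 0 * y + 2 * b * x2 - 2 * g)) := (T.diff k).1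
  have h2 := T.b_pos
  have h3 := T.obt
  have h4 : 0 ≤ 2 * 0 * y + 2 * b * x2 - 2 * g := by linarith only [h3]
  have h5 := mul_nonneg hm.le h4
  have h6 := mul_pos hs h2
  linarith only [h1, h5, h6]

/-- the slope is larger than `s^2` -/
theorem slope (T : Two 0 b (1 / 2) R κ f g' x1' x2' g y x2) (h1 : 1.8477 ≤ 2 * b)
    (h8 : 0 ≤ (2 * b) ^ 4 - 4 * (2 * b) ^ 2 + 2) (hm : 0 < fm b κ 4) :
    0 ≤ x2 - (2 * b) ^ 2 * y := by
  obtain ⟨s, hs⟩ : ∃ s, s = 2 * b := ⟨_, rfl⟩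
  have hv := T.v1
  have s4 : 0 < sq b 4 := by
    rw [sq4, ← hs]
    rw [← hs] at h1
    nlinarith only [mul_pos (by linarith only [h1] : 0 < s) (by nlinarith only [h1] : 0 < s ^ 2 - 2)]
  have k1 := e_lt T (k := 3) hm s4
  have k2 : fe 0 b (1 / 2) y x2 g (3 + 2) = 2 * b * fe 0 b (1 / 2) y x2 g 4 +
    fw 0 (1 / 2) 4 * y - fe 0 b (1 / 2) y x2 g 3 := rfl
  have k3 : fw 0 (1 / 2) 4 = 0 := fw_even 2
  rw [k2, k3] at k1
  have E4 := z1_nonneg (fe_z T.h T.hy (by linarith only [hv]) 4)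
  have c3 := (fe_closed8 b y x2 g 1).2
  have c4 := (fe_closed8 b y x2 g 2).1
  have e3 : fe 0 b (1 / 2) y x2 g (2 * 1 + 1) = fe 0 b (1 / 2) y x2 g 3 := rfl
  have e4 : fe 0 b (1 / 2) y x2 g (2 * 2) = fe 0 b (1 / 2) y x2 g 4 := rfl
  have q1 : sq b 1 = 1 := rfl
  have q2 : sq b 2 = 2 * b := by
    show 2 * b * 1 - 0 = _
    ring
  have q22 : sq b (1 + 1) = 2 * b := q2
  have q3 : sq b (2 + 1) = (2 * b) ^ 2 - 1 := sq3 b
  rw [e3, q1, q22, ← hs] at c3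
  rw [e4, q2, q3, ← hs] at c4
  rw [← hs] at k1 h1 h8 ⊢
  rw [c4] at E4
  rw [c3, c4] at k1
  -- `X = s_4 E_3 - s_3 E_4`
  have h3 : 0 < s ^ 2 - 1 := by nlinarith only [h1]
  have h4 : 0 < s ^ 3 - 2 * s := by nlinarith only [mul_pos (by linarith only [h1] : 0 < s) (by nlinarith only [h1] : 0 < s ^ 2 - 2)]
  obtain ⟨A, hA⟩ : ∃ A, A = s * (2 * (s ^ 2 - 1) - s * s) * g -
    (2 * s ^ 2 - s ^ 2 * s ^ 2 + s * s * (s ^ 2 - 1) - 1) * x2 + y * s ^ 2 := ⟨_, rfl⟩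
  obtain ⟨C, hC⟩ : ∃ C, C = (s ^ 2 - 1 ^ 2) * g - 1 * (2 * s - s * 1) * x2 + y * (1 * s) := ⟨_, rfl⟩
  rw [← hA] at E4 k1
  rw [← hC] at k1
  have key : x2 - s ^ 2 * y = (s ^ 3 - 2 * s) * C - (s ^ 2 - 1) * A := by
    rw [hA, hC]
    ring
  have k5 : s * A < 2 * C := by linarith only [k1]
  have k6 : (s ^ 3 - 2 * s) * (s * A) ≤ (s ^ 3 - 2 * s) * (2 * C) := mul_le_mul_of_nonneg_left k5.le h4.le
  have k7 := mul_nonneg h8 E4
  rw [key]
  nlinarith only [k6, k7]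

/-- `κ_4 ≤ κ_(i+1)` -/
theorem kap {i : ℕ} (hs : ∀ n, 1 ≤ n → n ≤ i + 4 → 1 ≤ sq b n) :
    sq b 3 * sq b (i + 4) ≤ sq b 4 * sq b (i + 3) := by
  induction i with
  | zero => exact (mul_comm _ _).le
  | succ i ih =>
    have h1 := ih fun n h1 h2 => hs n h1 (by omega)
    have h2 := sq_cassini b (i + 3)
    have p1 := hs (i + 3) (by omega) (by omega)
    have p2 := hs (i + 4) (by omega) (by omega)
    have p3 := hs 3 (by omega) (by omega)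
    have e1 : i + 1 + 4 = i + 3 + 2 := by omega
    have e2 : i + 1 + 3 = i + 4 := by omega
    have e3 : i + 3 + 1 = i + 4 := by omega
    rw [e1, e2]
    rw [e3] at h2
    have h3 : sq b (i + 3) * (sq b 3 * sq b (i + 3 + 2)) ≤ sq b (i + 3) * (sq b 4 * sq b (i + 4)) := by
      have h4 : sq b (i + 3) * (sq b 3 * sq b (i + 3 + 2)) = sq b 3 * (sq b (i + 4) ^ 2 - 1) := by
        linear_combination (-(sq b 3)) * h2
      have h5 : sq b (i + 4) * (sq b 3 * sq b (i + 4)) ≤ sq b (i + 4) * (sq b 4 * sq b (i + 3)) :=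
        mul_le_mul_of_nonneg_left h1 (by linarith only [p2])
      rw [h4]
      linarith only [p3, h5]
    exact le_of_mul_le_mul_left h3 (by linarith only [p1])

/-- linear bounds for `κ_4` -/
theorem kap4 {s τ : ℝ} (h1 : 1.8477 ≤ s) (h2 : s ≤ 2) (ht : s ^ 2 - 1 ≤ τ * (s ^ 3 - 2 * s)) :
    2.5 - 0.875 * s ≤ τ ∧ 3.695 - 1.5 * s ≤ τ := by
  obtain ⟨v, hv⟩ : ∃ v, v = 2 - s := ⟨_, rfl⟩
  have hs : s = 2 - v := by linarith only [hv]
  have v1 : 0 ≤ v := by linarith only [h2, hs]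
  have v2 : v ≤ 0.1523 := by linarith only [h1, hs]
  have m2 := mul_nonneg v1 (sub_nonneg.2 v2)
  have m5 := mul_nonneg (mul_nonneg v1 v1) v1
  have m6 := mul_nonneg (mul_nonneg v1 v1) (sub_nonneg.2 v2)
  have m7 := mul_nonneg (mul_nonneg v1 v1) (mul_nonneg v1 (sub_nonneg.2 v2))
  have m8 := mul_nonneg v1 (mul_nonneg (sub_nonneg.2 v2) (sub_nonneg.2 v2))
  clear hv h1 h2
  have D0 : 0 < s ^ 3 - 2 * s := by
    rw [hs]
    nlinarith only [m7, m8]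
  have e : (s ^ 2 - 1) / (s ^ 3 - 2 * s) ≤ τ := by
    rw [div_le_iff₀ D0]
    exact ht
  constructor
  · refine le_trans ?_ e
    rw [le_div_iff₀ D0, hs]
    nlinarith only [m7]
  · refine le_trans ?_ e
    rw [le_div_iff₀ D0, hs]
    nlinarith only [m7, m8]

/-- even sectors: `k = 2 i + 1 ≥ 7`, the sector is `j = k + 1` -/
theorem even_sector (T : Two 0 b (1 / 2) R κ f g' x1' x2' g y x2) (hb : b ≤ 1) {i : ℕ} (hi : 3 ≤ i)
    (hs : ∀ n, 1 ≤ n → n ≤ 2 * i + 1 → 1 ≤ sq b n) (hs' : 0 ≤ sq b (2 * i + 2))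
    (hm : ∀ n ≤ 2 * i + 1, 0 < fm b κ n) {ρ1 ρ2 : ℝ} (h2 : 0 ≤ sq b (i + 1) * ρ2 + sq b i)
    (hn : -(2.87 - 1.3 * (2 * b)) < 2 * b + ρ1 + (2 * b) ^ 2 * ρ2) : 1 < g + y * ρ1 + x2 * ρ2 := by
  obtain ⟨hsge, hs4⟩ := s_ge (hs 2 (by omega) (by omega)) (hs 3 (by omega) (by omega))
    (hs 7 (by omega) (by omega))
  have hy := T.v1
  have hu := hs i (by omega) (by omega)
  have hv := hs (i + 1) (by omega) (by omega)
  obtain ⟨s, hsd⟩ : ∃ s, s = 2 * b := ⟨_, rfl⟩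
  obtain ⟨u, hud⟩ : ∃ u, u = sq b i := ⟨_, rfl⟩
  obtain ⟨v, hvd⟩ : ∃ v, v = sq b (i + 1) := ⟨_, rfl⟩
  have huv : u ^ 2 + v ^ 2 - s * u * v = 1 := by
    rw [hud, hvd, hsd]
    exact sq_norm b i
  have hw : sq b (i + 1 + 1) = s * v - u := by
    rw [hsd, hvd, hud]
    rfl
  -- the coordinates
  obtain ⟨p, hp⟩ : ∃ p, p = fe 0 b (1 / 2) y x2 g (2 * i + 1) := ⟨_, rfl⟩
  obtain ⟨q, hq⟩ : ∃ q, q = fe 0 b (1 / 2) y x2 g (2 * i + 2) := ⟨_, rfl⟩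
  have cp := (fe_closed8 b y x2 g i).2
  have cq := (fe_closed8 b y x2 g (i + 1)).1
  have e2 : fe 0 b (1 / 2) y x2 g (2 * (i + 1)) = fe 0 b (1 / 2) y x2 g (2 * i + 2) := rfl
  rw [← hp, ← hud, ← hvd, ← hsd] at cp
  rw [e2, ← hq, hw, ← hvd, ← hsd] at cq
  have key : v * p - u * q = v * g - u * x2 := by
    rw [cp, cq]
    linear_combination (v * g) * huv
  have p1 : 1 ≤ p := by
    rw [hp]
    exact T.e_pos (hm _ le_rfl)
  have k1 := e_lt T (k := 2 * i) (hm _ le_rfl) (by linarith only [hs (2 * i + 1) (by omega) le_rfl])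
  have k2 : fe 0 b (1 / 2) y x2 g (2 * i + 2) = 2 * b * fe 0 b (1 / 2) y x2 g (2 * i + 1) +
    fw 0 (1 / 2) (2 * i + 1) * y - fe 0 b (1 / 2) y x2 g (2 * i) := rfl
  rw [fw_odd, ← hp, ← hq, ← hsd] at k2
  rw [← hq] at k1
  have hB : 2 * q < s * p + y := by linarith only [k1, k2]
  have hN := fe_n T.h T.hy (2 * i + 1)
  have e3 : fe 0 b (1 / 2) y x2 g (2 * i + 1 + 1) = fe 0 b (1 / 2) y x2 g (2 * i + 2) := rfl
  have e4 : fw 0 (1 / 2) (2 * i + 1 + 1) = 0 := fw_even (i + 1)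
  rw [e3, e4, fw_odd, ← hp, ← hq] at hN
  have hN' : p ^ 2 + q ^ 2 + y ^ 2 - s * p * q - q * y = 1 := by
    rw [hsd]
    linear_combination hN
  -- `y ≤ s p - 1`
  have hyp : y ≤ s * p - 1 := by
    rcases fe_mem T.h T.hy (2 * i + 1) with ⟨h0, -⟩ | ⟨-, h1, -⟩
    · omega
    · rw [e3, ← hp, ← hq] at h1
      have h3 := T.h.r1 _ _ _ h1
      have h4 := T.h.r2 _ _ _ h3
      obtain ⟨-, z1, z2⟩ := T.h.z0 h4 (by linarith only [p1])
      have z1' := z1_nonneg z1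
      rw [← hsd] at z2
      rcases z2 with z2 | z2
      · linarith only [hB, z1', z2]
      · linarith
  -- the parameters
  have hs'' : 0 ≤ v * (s * v - 2 * u) := by
    have h1 := (sq_even8 b (i + 1)).1
    have h3 : sq b (2 * (i + 1)) = sq b (2 * i + 2) := rfl
    rw [h3, hw, ← hvd, ← hsd] at h1
    rw [h1] at hs'
    linarith only [hs']
  have v0 : 0 < v := by linarith only [hv, hvd]
  have hsv : 0 ≤ s * v - 2 * u := nonneg_of_mul_nonneg_right hs'' v0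
  obtain ⟨τ, hτ⟩ : ∃ τ, τ = u / v := ⟨_, rfl⟩
  have hτv : τ * v = u := by
    rw [hτ]
    field_simp
  have t5 : 2 * τ ≤ s := by
    have : (2 * τ) * v ≤ s * v := by linarith only [hsv, hτv]
    exact le_of_mul_le_mul_right this v0
  have s2 : s ≤ 2 := by linarith only [hb, hsd]
  have s1 : 1.8477 ≤ s := by linarith only [hsge, hsd]
  have t6 : s * τ < 2 := by
    by_contra hcon
    have h1 := not_lt.1 hcon
    have h3 : 2 ≤ τ * 2 := by nlinarith only [s2, s1, hcon]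
    have h4 : 2 ≤ s := by linarith only [t5, h3]
    have h5 : s = 2 := le_antisymm s2 h4
    have h6 : τ = 1 := by
      rw [h5] at t5 h1
      linarith only [t5, h3]
    rw [h6] at hτv
    rw [h5, ← hτv] at huv
    linarith only [huv]
  have t34 : 2.5 - 0.875 * s ≤ τ ∧ 3.695 - 1.5 * s ≤ τ := by
    apply kap4 s1 s2
    obtain ⟨m, rfl⟩ : ∃ m, i = m + 3 := ⟨i - 3, by omega⟩
    have h1 := kap (b := b) (i := m) (fun n h1 h3 => hs n h1 (by omega))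
    have h3 : sq b (m + 4) = sq b (m + 3 + 1) := rfl
    rw [h3, ← hud, ← hvd, sq3, sq4, ← hsd] at h1
    have h4 : (s ^ 2 - 1) * v ≤ (τ * (s ^ 3 - 2 * s)) * v := by
      rw [← hτv] at h1
      linarith only [h1]
    exact le_of_mul_le_mul_right h4 v0
  have hV := evenB s1 s2 t34.1 t34.2 t5 t6 hN' hB hy hyp
  have hgx : g - τ * x2 = p - τ * q := by
    have h1 : v * (g - τ * x2) = v * (p - τ * q) := by
      rw [← hτv] at key
      linear_combination -key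
    exact mul_left_cancel₀ v0.ne' h1
  have hX := slope T hsge hs4 (hm 4 (by omega))
  rw [← hsd] at hX hn
  have hρ : -τ ≤ ρ2 := by
    rw [← hud, ← hvd] at h2
    have : v * (-τ) ≤ v * ρ2 := by linarith only [h2, hτv]
    exact le_of_mul_le_mul_left this v0
  have f1 : y * (-(2.87 - 1.3 * s)) < y * (s + ρ1 + s ^ 2 * ρ2) := mul_lt_mul_of_pos_left hn (by linarith only [hy])
  have f2 : (x2 - s ^ 2 * y) * (-τ) ≤ (x2 - s ^ 2 * y) * ρ2 := mul_le_mul_of_nonneg_left hρ hX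
  have f3 : g + y * ρ1 + x2 * ρ2 = (g - s * y) + y * (s + ρ1 + s ^ 2 * ρ2) + (x2 - s ^ 2 * y) * ρ2 := by ring
  rw [f3]
  linarith only [hV, hgx, f1, f2]

end

end DY.G4B
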