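import Pool.Agent.Helper8.DY.G4Bd

/-!
# GAP4, labels (2,m,3): odd sectors `j ≥ 7` (MP_d13a5e_al)
-/

set_option autoImplicit false

namespace DY.G4B

open Pool.Agent.Helper32.DY (Two fm fw fe bf z1_nonneg z1_one fe_mem fe_z fe_n)
open Pool.Agent.Helper62.DY (RT rt_of_tri)

/-- the sector `7`, `m ≥ 8`, `y = p`, if K fails -/
theorem odd7k {s τ D p q : ℝ} (h1 : 1.8477 ≤ s) (h2 : s ≤ 2)
    (ht : τ * (s ^ 3 + s ^ 2 - 2 * s - 1) = s ^ 2 + s - 1)
    (hD : (s + 2) * D = (s + 1) * ((s ^ 2 + s - 1) * τ - (s + 1)) - (s + 2) * (2.87 - 1.3 * s))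
    (hN : p ^ 2 + q ^ 2 - s * p * q = 1) (hB : 2 * τ < s * p - 2 * q) (hp : 1 ≤ p) :
    1 ≤ p - τ * q + D * p := by
  obtain ⟨t1, t2, t3⟩ := tau7 h1 h2 ht
  obtain ⟨D0, D1⟩ := par7 h1 h2 t1 t2 t3 hD
  have e4 : 0.714 ≤ τ := by linarith only [h2, t1]
  have e5 : τ ≤ 0.8483 := by linarith only [h1, t3]
  by_contra hV
  rw [not_le] at hV
  obtain ⟨β, hβ⟩ : ∃ β, β = 1 - s * τ / 2 + D := ⟨_, rfl⟩
  obtain ⟨k, hk⟩ : ∃ k, k = 1 - s ^ 2 / 4 := ⟨_, rfl⟩
  obtain ⟨z, hz⟩ : ∃ z, z = (s * p - 2 * q) / 2 := ⟨_, rfl⟩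
  have z1 : τ < z := by linarith only [hB, hz]
  have z2 : z ^ 2 = 1 - k * p ^ 2 := by
    rw [hz, hk]
    linear_combination hN
  have hV' : β * p + τ * z < 1 := by
    have : p - τ * q + D * p = β * p + τ * z := by
      rw [hβ, hz]
      ring
    linarith only [hV, this]
  have k1 : k ≤ 0.1466 := by
    rw [hk]
    nlinarith only [h1]
  have k0 : 0 ≤ k := by
    rw [hk]
    nlinarith only [h1, h2]
  have b1 : 0.28 ≤ β := by
    have := mul_nonneg (by linarith only [t2, t3] : 0 ≤ s) (by linarith only [t3] : 0 ≤ 2.4685 - 0.877 * s - τ)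
    have h3 : 0.2 ≤ 1 - s * τ / 2 := by nlinarith only [hk, k1, this]
    linarith only [D0, hβ, h3]
  have e6 : τ ^ 2 < τ * z := by nlinarith only [e4, z1]
  have a1 : 0 ≤ p - 1 := by linarith only [hp]
  have c1 : 0 < 1 - τ ^ 2 - β * p := by linarith only [hV', e6]
  have e7 : (τ * z) ^ 2 < (1 - β * p) ^ 2 := by
    apply pow_lt_pow_left₀ (by linarith only [hV']) (mul_nonneg (by linarith only [e4]) (by linarith only [e4, z1])) (by norm_num)
  have e8 : 0 < (1 - β * p) ^ 2 - τ ^ 2 * (1 - k * p ^ 2) := by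
    rw [mul_pow, z2] at e7
    linarith only [e7]
  have M0 : 0 < 1 - τ ^ 2 - β := by
    have := mul_nonneg (by linarith only [b1] : 0 ≤ β) a1
    linarith only [c1, this]
  have g1 : 0 ≤ D * (s * τ - D) := by
    apply mul_nonneg (by linarith only [D0])
    nlinarith only [t2, t3, D1, e4]
  have g2 : 0 ≤ β ^ 2 - k * (1 - τ ^ 2) := by
    have f1 : 0.28 ^ 2 ≤ β ^ 2 := pow_le_pow_left₀ (by norm_num) b1 2
    have f2 : 0.714 ^ 2 ≤ τ ^ 2 := pow_le_pow_left₀ (by norm_num) e4 2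
    have f3 : k * (1 - τ ^ 2) ≤ 0.1466 * (1 - 0.714 ^ 2) :=
      mul_le_mul k1 (by linarith only [f2]) (by nlinarith only [z1, z2, k0, e6]) (by norm_num)
    norm_num at f1 f3
    linarith only [f1, f3]
  have key : (1 - τ ^ 2 - β) ^ 2 * ((1 - β * p) ^ 2 - τ ^ 2 * (1 - k * p ^ 2)) =
      -(D * (s * τ - D)) * (1 - τ ^ 2 - β * p) ^ 2 -
        2 * τ ^ 2 * (β ^ 2 - k * (1 - τ ^ 2)) * ((p - 1) * (1 - τ ^ 2 - β * p)) -
        τ ^ 2 * (1 - τ ^ 2) * (β ^ 2 - k * (1 - τ ^ 2)) * (p - 1) ^ 2 := by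
    have : D * (s * τ - D) = τ ^ 2 * (1 - k) - (1 - β) ^ 2 := by
      rw [hk, hβ]
      ring
    rw [this]
    ring
  have h5 := mul_pos (pow_pos M0 2) e8
  have h6 := mul_nonneg g1 (sq_nonneg (1 - τ ^ 2 - β * p))
  have h7 := mul_nonneg (mul_nonneg (sq_nonneg τ) g2) (mul_nonneg a1 c1.le)
  have h8 := mul_nonneg (mul_nonneg (mul_nonneg (sq_nonneg τ) (by nlinarith only [b1, a1, c1] : 0 ≤ 1 - τ ^ 2)) g2)
    (sq_nonneg (p - 1))
  linarith only [key, h5, h6, h7, h8]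

/-- the sector behind `V_2`, `m = 7`, `y ≤ p - 1` -/
theorem odd77' {s D p q y : ℝ} (h0 : s ^ 3 - s ^ 2 - 2 * s + 1 = 0) (h1 : 1.8 ≤ s) (h2 : s ≤ 1.803)
    (D0 : 0 ≤ D) (D1 : D ≤ 0.05)
    (hN : p ^ 2 + q ^ 2 + y ^ 2 - s * p * q - p * y = 1) (hB : 2 * q < s * p) (hy : 1 ≤ y)
    (hyp : y ≤ p - 1) : 1 ≤ p - s / 2 * q + D * y := by
  have s1 : 1.8019 ≤ s := by nlinarith only [h0, h1]
  have s2 : s ≤ 1.802 := by nlinarith only [h0]
  have s3 : 3.2468 ≤ s ^ 2 := by nlinarith only [s1]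
  have s4 : s ^ 2 ≤ 3.2473 := by nlinarith only [s1, s2]
  obtain ⟨k, hk⟩ : ∃ k, k = 1 - s ^ 2 / 4 := ⟨_, rfl⟩
  have k0 : 0.188 ≤ k := by linarith only [s4, hk]
  have k1 : k ≤ 0.1883 := by linarith only [s3, hk]
  have hk' : k = 1 - s * (s / 2) / 2 := by
    rw [hk]
    ring
  refine oddB (k := k) (α := k) hk' hk hN hB hy hyp (by linarith only [s1]) D0 (by linarith only [k0])
    le_rfl ?_ (by linarith only [k1]) (by linarith only [k0]) ?_
  · have f1 : (1 - 2 * k - D) ^ 2 ≤ 0.63 ^ 2 := by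
      apply pow_le_pow_left₀ (by linarith only [D1, k1]) (by linarith only [D0, k0])
    have f2 : (s / 2) ^ 2 = s ^ 2 / 4 := by ring
    have f3 : 0.81 * 1.2 ≤ s ^ 2 / 4 * (2 - 4 * k) :=
      mul_le_mul (by linarith only [k1, hk']) (by linarith only [k1]) (by norm_num) (by positivity)
    rw [f2]
    norm_num at f1 f3
    linarith only [f1, f3]
  · have f1 : k * (1 - D ^ 2) ≤ 0.1883 * 1 := by
      apply mul_le_mul k1 (by nlinarith only []) (by nlinarith only [D0, D1]) (by norm_num)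
    have f2 : 0 ≤ k * (k + D) := mul_nonneg (by linarith only [k0]) (by linarith only [D0, k0])
    linarith only [D1, k1, f1, f2]

section

variable {b : ℝ} {R : ℝ → ℝ → ℝ → Prop} {κ f g' x1' x2' g y x2 : ℝ}

/-- coordinates in an odd sector -/
theorem odd_prep (T : Two 0 b (1 / 2) R κ f g' x1' x2' g y x2) {i : ℕ} (hi : 1 ≤ i)
    (hs : 0 < sq b (2 * i)) (hm : 0 < fm b κ (2 * i)) {s u v p q : ℝ} (hsd : s = 2 * b) (hud : u = sq b i)
    (hvd : v = sq b (i + 1)) (hp : p = fe 0 b (1 / 2) y x2 g (2 * i))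
    (hq : q = fe 0 b (1 / 2) y x2 g (2 * i + 1)) :
    1 ≤ p ∧ Z1 q ∧ Z1 (p - y) ∧ R q (p - y) p ∧ 2 * q < s * p ∧ p ^ 2 + q ^ 2 + y ^ 2 - s * p * q - p * y = 1 ∧
      (v + u) * p - ((s + 1) * u - v) * q = (v + u) * g - ((s + 1) * u - v) * x2 + y * u := by
  have hy := T.v1
  have huv : u ^ 2 + v ^ 2 - s * u * v = 1 := by
    rw [hud, hvd, hsd]
    exact sq_norm b i
  have cp := (fe_closed8 b y x2 g i).1
  have cq := (fe_closed8 b y x2 g i).2
  rw [← hp, ← hud, ← hvd, ← hsd] at cp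
  rw [← hq, ← hud, ← hvd, ← hsd] at cq
  have p1 : 1 ≤ p := by
    rw [hp]
    exact T.e_pos hm
  have hR : R q (p - y) p := by
    rcases fe_mem T.h T.hy (2 * i) with ⟨-, h1, -⟩ | ⟨h0, -⟩
    · rw [← hp, ← hq] at h1
      have h3 := T.h.r1 _ _ _ h1
      have e : 2 * 0 * q + 2 * (1 / 2) * p - y = p - y := by ring
      rw [e] at h3
      exact h3
    · omega
  obtain ⟨z1, z2, -⟩ := T.h.z2 hR (by linarith only [p1])
  have hN := fe_n T.h T.hy (2 * i)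
  rw [fw_odd, fw_even, ← hp, ← hq, ← hsd] at hN
  refine ⟨p1, z1, z2, hR, ?_, by linear_combination hN, ?_⟩
  · obtain ⟨m, rfl⟩ : ∃ m, i = m + 1 := ⟨i - 1, by omega⟩
    have h1 : sq b (2 * (m + 1)) = sq b (2 * m + 1 + 1) := rfl
    have h2 : fm b κ (2 * (m + 1)) = fm b κ (2 * m + 1 + 1) := rfl
    rw [h1] at hs
    rw [h2] at hm
    have k1 := e_lt T (k := 2 * m + 1) hm hs
    have k2 : fe 0 b (1 / 2) y x2 g (2 * m + 1 + 2) = 2 * b * fe 0 b (1 / 2) y x2 g (2 * m + 1 + 1) +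
      fw 0 (1 / 2) (2 * m + 1 + 1) * y - fe 0 b (1 / 2) y x2 g (2 * m + 1) := rfl
    have k3 : fw 0 (1 / 2) (2 * m + 1 + 1) = 0 := fw_even (m + 1)
    have k4 : fe 0 b (1 / 2) y x2 g (2 * (m + 1)) = fe 0 b (1 / 2) y x2 g (2 * m + 1 + 1) := rfl
    have k5 : fe 0 b (1 / 2) y x2 g (2 * (m + 1) + 1) = fe 0 b (1 / 2) y x2 g (2 * m + 1 + 2) := rfl
    rw [k4] at hp
    rw [k5] at hq
    rw [k3, ← hp, ← hsd, ← hq] at k2
    rw [← hq] at k1
    linarith only [k1, k2]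
  · rw [cp, cq]
    linear_combination ((v + u) * g - ((s + 1) * u - v) * x2 + y * u - (v + u) * x2) * huv

/-- odd sectors `j ≥ 9` -/
theorem odd_sector9 (T : Two 0 b (1 / 2) R κ f g' x1' x2' g y x2) (hb : b ≤ 1) {i : ℕ} (hi : 4 ≤ i)
    (hs : ∀ n, 1 ≤ n → n ≤ 2 * i → 1 ≤ sq b n) (hs' : 0 ≤ sq b (2 * i + 1))
    (hm : ∀ n ≤ 2 * i, 0 < fm b κ n) {ρ1 ρ2 : ℝ}
    (h2 : 0 ≤ (sq b (i + 1) + sq b i) * ρ2 + ((2 * b + 1) * sq b i - sq b (i + 1)))
    (hn : -(2.87 - 1.3 * (2 * b)) < 2 * b + ρ1 + (2 * b) ^ 2 * ρ2) : 1 < g + y * ρ1 + x2 * ρ2 := by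
  obtain ⟨hsge, hs4⟩ := s_ge (hs 2 (by omega) (by omega)) (hs 3 (by omega) (by omega))
    (hs 7 (by omega) (by omega))
  have hy := T.v1
  have hu := hs i (by omega) (by omega)
  have hv := hs (i + 1) (by omega) (by omega)
  obtain ⟨s, hsd⟩ : ∃ s, s = 2 * b := ⟨_, rfl⟩
  obtain ⟨u, hud⟩ : ∃ u, u = sq b i := ⟨_, rfl⟩
  obtain ⟨v, hvd⟩ : ∃ v, v = sq b (i + 1) := ⟨_, rfl⟩
  have huv : u ^ 2 + v ^ 2 - s * u * v = 1 := by
    rw [hud, hvd, hsd]
    exact sq_norm b i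
  obtain ⟨p, hp⟩ : ∃ p, p = fe 0 b (1 / 2) y x2 g (2 * i) := ⟨_, rfl⟩
  obtain ⟨q, hq⟩ : ∃ q, q = fe 0 b (1 / 2) y x2 g (2 * i + 1) := ⟨_, rfl⟩
  obtain ⟨p1, q0, py, -, hB, hN, key⟩ := odd_prep T (by omega)
    (by linarith only [hs (2 * i) (by omega) le_rfl]) (hm _ le_rfl) hsd hud hvd hp hq
  have hyp : y ≤ p := by linarith only [z1_nonneg py]
  have hs7 := (sq_even8 b i).2
  rw [← hud, ← hvd] at hs7
  rw [hs7] at hs'
  rw [← hud] at hu
  rw [← hvd] at hv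
  have huv' : u ≤ v := by
    have : 0 ≤ (v - u) * (v + u) := by linarith only [hs']
    have := nonneg_of_mul_nonneg_left this (by linarith only [hu, hv])
    linarith only [this]
  have w0 : 0 < v + u := by linarith only [hu, hv]
  obtain ⟨τ, hτ⟩ : ∃ τ, τ = ((s + 1) * u - v) / (v + u) := ⟨_, rfl⟩
  have hτv : τ * (v + u) = (s + 1) * u - v := by
    rw [hτ]
    field_simp
  have s2 : s ≤ 2 := by linarith only [hb, hsd]
  have s1 : 1.8477 ≤ s := by linarith only [hsge, hsd]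
  have t5 : 2 * τ ≤ s := by
    have : (2 * τ) * (v + u) ≤ s * (v + u) := by
      have := mul_nonneg (by linarith only [s1] : 0 ≤ s + 2) (by linarith only [huv'] : 0 ≤ v - u)
      linarith only [hτv, this]
    exact le_of_mul_le_mul_right this w0
  have t6 : s * τ < 2 := by
    by_contra hcon
    have h1 := not_lt.1 hcon
    have h3 : 2 ≤ τ * 2 := by nlinarith only [s2, s1, hcon]
    have h4 : 2 ≤ s := by linarith only [t5, h3]
    have h5 : s = 2 := le_antisymm s2 h4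
    have h6 : τ = 1 := by
      rw [h5] at t5 h1
      linarith only [t5, h3]
    rw [h6, h5] at hτv
    have h7 : u = v := by linarith only [hτv]
    rw [h5, h7] at huv
    linarith only [huv]
  have t34 : 2.5 - 0.875 * s ≤ τ ∧ 3.695 - 1.5 * s ≤ τ := by
    apply kap4 s1 s2
    obtain ⟨m, rfl⟩ : ∃ m, i = m + 4 := ⟨i - 4, by omega⟩
    have h1 := kap (b := b) (i := m) (fun n h1 h3 => hs n h1 (by omega))
    have h3 : sq b (m + 3) = s * u - v := by
      have : sq b (m + 4 + 1) = 2 * b * sq b (m + 4) - sq b (m + 3) := rfl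
      rw [hud, hvd, hsd, this]
      ring
    rw [h3, ← hud, sq3, sq4, ← hsd] at h1
    have h4 : (s * u - v) * (v + u) ≤ u * (τ * (v + u)) := by
      rw [hτv]
      have : (s * u - v) * v ≤ u * u := by nlinarith only [huv]
      nlinarith only [this]
    have h5 : s * u - v ≤ u * τ := by
      have : (s * u - v) * (v + u) ≤ (u * τ) * (v + u) := by linarith only [h4]
      exact le_of_mul_le_mul_right this w0
    have h6 : 0 < s ^ 3 - 2 * s := by
      have := mul_pos (by linarith only [s1] : 0 < s) (by nlinarith only [s1] : 0 < s ^ 2 - 2)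
      linarith only [this]
    have h7 : (s ^ 2 - 1) * u ≤ (τ * (s ^ 3 - 2 * s)) * u := by
      have := mul_le_mul_of_nonneg_left h5 h6.le
      linarith only [h1, this]
    exact le_of_mul_le_mul_right h7 (by linarith only [hu])
  obtain ⟨D, hD'⟩ : ∃ D, D = s ^ 2 * τ - s - (2.87 - 1.3 * s) - (1 + τ) / (s + 2) := ⟨_, rfl⟩
  have s20 : s + 2 ≠ 0 := by linarith only [s1]
  have hD : (s + 2) * D = (s + 1) * ((s ^ 2 + s - 1) * τ - (s + 1)) - (s + 2) * (2.87 - 1.3 * s) := by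
    rw [hD']
    field_simp
    ring
  have hV := odd9 s1 s2 t34.1 t34.2 t5 t6 hD hN hB hy hyp
  have hτ2 : (1 + τ) / (s + 2) * (v + u) = u := by
    rw [div_mul_eq_mul_div, div_eq_iff s20]
    linear_combination hτv
  have hgx : g - τ * x2 = p - τ * q - y * ((1 + τ) / (s + 2)) := by
    have h1 : (v + u) * (g - τ * x2) = (v + u) * (p - τ * q - y * ((1 + τ) / (s + 2))) := by
      rw [← hτv] at key
      linear_combination -key + y * hτ2
    exact mul_left_cancel₀ w0.ne' h1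
  have hX := slope T hsge hs4 (hm 4 (by omega))
  rw [← hsd] at hX hn
  have hρ : -τ ≤ ρ2 := by
    rw [← hud, ← hvd, ← hsd, ← hτv] at h2
    have : (v + u) * (-τ) ≤ (v + u) * ρ2 := by linarith only [h2]
    exact le_of_mul_le_mul_left this w0
  have f1 : y * (-(2.87 - 1.3 * s)) < y * (s + ρ1 + s ^ 2 * ρ2) := mul_lt_mul_of_pos_left hn (by linarith only [hy])
  have f2 : (x2 - s ^ 2 * y) * (-τ) ≤ (x2 - s ^ 2 * y) * ρ2 := mul_le_mul_of_nonneg_left hρ hX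
  have f3 : g + y * ρ1 + x2 * ρ2 = (g - s * y) + y * (s + ρ1 + s ^ 2 * ρ2) + (x2 - s ^ 2 * y) * ρ2 := by ring
  rw [f3]
  rw [hD'] at hV
  linarith only [hV, hgx, f1, f2]

end

end DY.G4B
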