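import Pool.Agent.Helper8.DY.G4Be

/-!
# GAP4, labels (2,m,3): the sector `j = 7` (MP_d13a5e_al)
-/

set_option autoImplicit false

namespace DY.G4B

open Pool.Agent.Helper32.DY (Two fm fw fe bf z1_nonneg z1_one fe_mem fe_z fe_n)
open Pool.Agent.Helper62.DY (RT rt_of_tri)

section

variable {b : ℝ} {R : ℝ → ℝ → ℝ → Prop} {κ f g' x1' x2' g y x2 : ℝ}

/-- the sector `7`, `m ≥ 8` -/
theorem odd_sector7 (T : Two 0 b (1 / 2) R κ f g' x1' x2' g y x2) (hb : b ≤ 1)
    (hs : ∀ n, 1 ≤ n → n ≤ 7 → 1 ≤ sq b n)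
    (hm : ∀ n ≤ 6, 0 < fm b κ n) (hm7 : fm b κ 7 < 0) {ρ1 ρ2 : ℝ}
    (hK : (1 + fm b κ 7) * (x2 * x1' - x2' * y) < sq b 7 * x1')
    (h2 : 0 ≤ (sq b 4 + sq b 3) * ρ2 + ((2 * b + 1) * sq b 3 - sq b 4))
    (hn : -(2.87 - 1.3 * (2 * b)) < 2 * b + ρ1 + (2 * b) ^ 2 * ρ2) : 1 < g + y * ρ1 + x2 * ρ2 := by
  obtain ⟨hsge, hs4⟩ := s_ge (hs 2 (by omega) (by omega)) (hs 3 (by omega) (by omega))
    (hs 7 (by omega) (by omega))
  have hy := T.v1
  have hu := hs 3 (by omega) (by omega)
  have hv := hs 4 (by omega) (by omega)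
  obtain ⟨s, hsd⟩ : ∃ s, s = 2 * b := ⟨_, rfl⟩
  obtain ⟨u, hud⟩ : ∃ u, u = sq b 3 := ⟨_, rfl⟩
  obtain ⟨v, hvd⟩ : ∃ v, v = sq b 4 := ⟨_, rfl⟩
  have hu' : u = s ^ 2 - 1 := by rw [hud, sq3, hsd]
  have hv' : v = s ^ 3 - 2 * s := by rw [hvd, sq4, hsd]
  obtain ⟨p, hp⟩ : ∃ p, p = fe 0 b (1 / 2) y x2 g 6 := ⟨_, rfl⟩
  obtain ⟨q, hq⟩ : ∃ q, q = fe 0 b (1 / 2) y x2 g 7 := ⟨_, rfl⟩
  obtain ⟨p1, q0, py, hR, hB, hN, key⟩ := odd_prep T (i := 3) (by omega)
    (by
      have : sq b (2 * 3) = sq b 6 := rfl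
      rw [this]
      linarith only [hs 6 (by omega) (by omega)])
    (hm _ (by omega)) hsd hud hvd hp hq
  have hyp : y ≤ p := by linarith only [z1_nonneg py]
  rw [← hud] at hu
  rw [← hvd] at hv
  have w0 : 0 < v + u := by linarith only [hu, hv]
  obtain ⟨τ, hτ⟩ : ∃ τ, τ = ((s + 1) * u - v) / (v + u) := ⟨_, rfl⟩
  have hτv : τ * (v + u) = (s + 1) * u - v := by
    rw [hτ]
    field_simp
  have s2 : s ≤ 2 := by linarith only [hb, hsd]
  have s1 : 1.8477 ≤ s := by linarith only [hsge, hsd]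
  have ht : τ * (s ^ 3 + s ^ 2 - 2 * s - 1) = s ^ 2 + s - 1 := by
    rw [hu', hv'] at hτv
    linear_combination hτv
  obtain ⟨D, hD'⟩ : ∃ D, D = s ^ 2 * τ - s - (2.87 - 1.3 * s) - (1 + τ) / (s + 2) := ⟨_, rfl⟩
  have s20 : s + 2 ≠ 0 := by linarith only [s1]
  have hD : (s + 2) * D = (s + 1) * ((s ^ 2 + s - 1) * τ - (s + 1)) - (s + 2) * (2.87 - 1.3 * s) := by
    rw [hD']
    field_simp
    ring
  have hV : 1 ≤ p - τ * q + D * y := by
    rcases py with py | py
    · have hyp' : y = p := by linarith only [py]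
      have hN' : p ^ 2 + q ^ 2 - s * p * q = 1 := by
        rw [hyp'] at hN
        linear_combination hN
      -- `Q0 ≤ 1`
      have hQ : p - s * q ≤ 2 := by
        rcases z1_nonneg q0 |>.eq_or_lt with h0 | h0
        · rw [← h0] at hN' ⊢
          have : p = 1 := by nlinarith only [p1, hN']
          rw [this]
          norm_num
        · have h3 := T.h.r2 _ _ _ hR
          have h4 := (T.h.z0 h3 h0).2.2
          have h5 := z1_nonneg h4
          have h6 : 2 * b * q + 2 * (1 / 2) * (p - y) - p = s * q - p := by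
            rw [hyp', hsd]
            ring
          rw [h6] at h5
          linarith only [h5]
      have hP : 2 * τ < s * p - 2 * q := by
        by_contra hcon
        have hP := not_lt.1 hcon
        have d5 : fe 0 b (1 / 2) y x2 g 5 - fe 0 b (1 / 2) y x2 g 7 =
          fm b κ 6 * (2 * 0 * y + 2 * b * x2 - 2 * g) + sq b 6 *
          ((2 * x2 - 2 * b * g - 2 * (1 / 2) * y) - κ * (2 * 0 * y + 2 * b * x2 - 2 * g)) := (T.diff 5).1
        have d6 : fe 0 b (1 / 2) y x2 g 6 - fe 0 b (1 / 2) y x2 g 8 =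
          fm b κ 7 * (2 * 0 * y + 2 * b * x2 - 2 * g) + sq b 7 *
          ((2 * x2 - 2 * b * g - 2 * (1 / 2) * y) - κ * (2 * 0 * y + 2 * b * x2 - 2 * g)) := (T.diff 5).2
        have e7 : fe 0 b (1 / 2) y x2 g 7 = 2 * b * fe 0 b (1 / 2) y x2 g 6 +
          fw 0 (1 / 2) 6 * y - fe 0 b (1 / 2) y x2 g 5 := rfl
        have e8 : fe 0 b (1 / 2) y x2 g 8 = 2 * b * fe 0 b (1 / 2) y x2 g 7 +
          fw 0 (1 / 2) 7 * y - fe 0 b (1 / 2) y x2 g 6 := rfl
        have w6 : fw 0 (1 / 2) 6 = 0 := fw_even 3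
        have w7 : fw 0 (1 / 2) 7 = 1 := fw_odd 3
        rw [w6, ← hp, ← hq, ← hsd] at e7
        rw [w7, ← hp, ← hq, ← hsd] at e8
        rw [← hq] at d5
        rw [e8, ← hp] at d6
        obtain ⟨δ, hδ⟩ : ∃ δ, δ = 2 * 0 * y + 2 * b * x2 - 2 * g := ⟨_, rfl⟩
        obtain ⟨c, hc⟩ : ∃ c, c = (2 * x2 - 2 * b * g - 2 * (1 / 2) * y) -
          κ * (2 * 0 * y + 2 * b * x2 - 2 * g) := ⟨_, rfl⟩
        rw [← hc, ← hδ] at d5 d6
        have P2 : fm b κ 6 * δ + sq b 6 * c = s * p - 2 * q := by linarith only [e7, d5]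
        have Q2 : fm b κ 7 * δ + sq b 7 * c = p - s * q := by
          rw [← d6, hyp']
          ring
        have hn := T.h.n _ _ _ T.hy
        have hΔ : 0 < x2 * x1' - x2' * y := by linarith only [T.st]
        have hc1 : (x2 * x1' - x2' * y) * c = 2 * x1' - 2 * y * bf 0 b (1 / 2) g' x1' x2' g y x2 := by
          have hfx : κ * x2' = g' + f * x1' := by linarith only [T.fx]
          have hfy : κ * x2 = g + f * y := by linarith only [T.fy]
          have h2 : κ * (x2 * x1' - x2' * y) = g * x1' - g' * y := by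
            linear_combination x1' * hfy - y * hfx
          rw [hc]
          unfold bf
          linear_combination (-(2 * 0 * y + 2 * b * x2 - 2 * g)) * h2 + 2 * x1' * hn
        have hc2 : 2 * x1' ≤ (x2 * x1' - x2' * y) * c := by
          rw [hc1]
          have := mul_nonpos_of_nonneg_of_nonpos (by linarith only [hy] : 0 ≤ y) T.hB
          linarith only [this]
        have f6 : fm b κ 6 = κ * sq b 6 - sq b 5 := rfl
        have f7 : fm b κ 7 = κ * sq b 7 - sq b 6 := rfl
        have hcas := sq_cassini b 5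
        have hcas' : sq b 6 ^ 2 - sq b 5 * sq b 7 = 1 := hcas
        have hdet : fm b κ 6 * sq b 7 - fm b κ 7 * sq b 6 = 1 := by
          rw [f6, f7]
          linear_combination hcas'
        have hs7 : sq b 7 = v ^ 2 - u ^ 2 := by
          have := (sq_even8 b 3).2
          have e : sq b (2 * 3 + 1) = sq b 7 := rfl
          have e4 : sq b (3 + 1) = sq b 4 := rfl
          rw [e, e4, ← hud, ← hvd] at this
          exact this
        have hs6 : sq b 6 = u * (2 * v - s * u) := by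
          have := (sq_even8 b 3).1
          have e : sq b (2 * 3) = sq b 6 := rfl
          have e4 : sq b (3 + 1) = sq b 4 := rfl
          rw [e, e4, ← hud, ← hvd, ← hsd] at this
          exact this
        have huv : u ^ 2 + v ^ 2 - s * u * v = 1 := by
          rw [hu', hv']
          have := sq_norm b 3
          have e4 : sq b (3 + 1) = sq b 4 := rfl
          rw [e4, sq3, sq4, ← hsd] at this
          exact this
        have hτ7 : sq b 7 * τ = sq b 6 - 1 := by
          rw [hs7, hs6]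
          linear_combination (v - u) * hτv - huv
        have h6 := hm 6 le_rfl
        have e1 : c = fm b κ 6 * (p - s * q) - fm b κ 7 * (s * p - 2 * q) := by
          rw [← P2, ← Q2]
          linear_combination (-c) * hdet
        have e2 : c ≤ fm b κ 6 * 2 - fm b κ 7 * (2 * τ) := by
          rw [e1]
          have a1 := mul_le_mul_of_nonneg_left hQ h6.le
          have a2 := mul_le_mul_of_nonneg_left hP (by linarith only [hm7] : 0 ≤ -fm b κ 7)
          linarith only [a1, a2]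
        have e3 : x1' ≤ (x2 * x1' - x2' * y) * (fm b κ 6 - fm b κ 7 * τ) := by
          have := mul_le_mul_of_nonneg_left e2 hΔ.le
          linarith only [hc2, this]
        have s70 : 0 < sq b 7 := by linarith only [hs 7 (by omega) le_rfl]
        have e4 := mul_le_mul_of_nonneg_left e3 s70.le
        have e5 : sq b 7 * ((x2 * x1' - x2' * y) * (fm b κ 6 - fm b κ 7 * τ)) =
            (1 + fm b κ 7) * (x2 * x1' - x2' * y) := by
          linear_combination (x2 * x1' - x2' * y) * hdet - (x2 * x1' - x2' * y) * fm b κ 7 * hτ7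
        linarith only [hK, e4, e5]
      have := odd7k s1 s2 ht hD hN' hP p1
      rw [hyp']
      exact this
    · exact odd7b s1 s2 ht hD hN hB hy (by linarith only [py])
  have hτ2 : (1 + τ) / (s + 2) * (v + u) = u := by
    rw [div_mul_eq_mul_div, div_eq_iff s20]
    linear_combination hτv
  have hgx : g - τ * x2 = p - τ * q - y * ((1 + τ) / (s + 2)) := by
    have h1 : (v + u) * (g - τ * x2) = (v + u) * (p - τ * q - y * ((1 + τ) / (s + 2))) := by
      rw [← hτv] at key
      linear_combination -key + y * hτ2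
    exact mul_left_cancel₀ w0.ne' h1
  have hX := slope T hsge hs4 (hm 4 (by omega))
  rw [← hsd] at hX hn
  have hρ : -τ ≤ ρ2 := by
    rw [← hud, ← hvd, ← hsd, ← hτv] at h2
    have : (v + u) * (-τ) ≤ (v + u) * ρ2 := by linarith only [h2]
    exact le_of_mul_le_mul_left this w0
  have f1 : y * (-(2.87 - 1.3 * s)) < y * (s + ρ1 + s ^ 2 * ρ2) := mul_lt_mul_of_pos_left hn (by linarith only [hy])
  have f2 : (x2 - s ^ 2 * y) * (-τ) ≤ (x2 - s ^ 2 * y) * ρ2 := mul_le_mul_of_nonneg_left hρ hX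
  have f3 : g + y * ρ1 + x2 * ρ2 = (g - s * y) + y * (s + ρ1 + s ^ 2 * ρ2) + (x2 - s ^ 2 * y) * ρ2 := by ring
  rw [f3]
  rw [hD'] at hV
  linarith only [hV, hgx, f1, f2]

end

end DY.G4B
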