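import Pool.Agent.Helper8.DY.G4Bf

/-!
# GAP4, labels (2,m,3): `m = 7`, `F` beyond `V_2` (MP_d13a5e_al)
-/

set_option autoImplicit false

namespace DY.G4B

open Pool.Agent.Helper32.DY (Two fm fw fe bf z1_nonneg z1_one fe_mem fe_z fe_n)
open Pool.Agent.Helper62.DY (RT rt_of_tri)

section

variable {b : ℝ} {R : ℝ → ℝ → ℝ → Prop} {κ f g' x1' x2' g y x2 : ℝ}

/-- a root with the third coordinate positive -/
theorem coh (h : RT 0 b (1 / 2) R) {a c d : ℝ} (hR : R a c d) (h0 : 0 < a ∨ 0 < c ∨ 0 < d) :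
    0 ≤ a ∧ 0 ≤ c ∧ 0 ≤ d := by
  rcases h0 with h0 | h0 | h0
  · obtain ⟨h1, h2, h3⟩ := h.z0 hR h0
    exact ⟨h0.le, z1_nonneg h2, z1_nonneg h3⟩
  · obtain ⟨h1, h2, h3⟩ := h.z1 hR h0
    exact ⟨z1_nonneg h1, h0.le, z1_nonneg h3⟩
  · obtain ⟨h1, h2, h3⟩ := h.z2 hR h0
    exact ⟨z1_nonneg h1, z1_nonneg h2, h0.le⟩

/-- `y = p` is impossible in the sector `7`: the root part -/
theorem nc77 (h : RT 0 b (1 / 2) R) {s m p q q' p' y y' : ℝ} (hsd : s = 2 * b) (hm : 0 < m)
    (hR : R q y p) (hR' : R q' y' p') (p1 : 1 ≤ p) (q0 : 0 ≤ q) (hy : 1 ≤ y) (hy' : 1 ≤ y') (p0' : 0 ≤ p')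
    (q0' : 0 ≤ q') (hA : (q * m + p) * y' = (q' * m + p') * y) (hD : 0 < p * y' - p' * y) (hpy : y = p) :
    1 ≤ (s ^ 2 - 1) * q - s * p := by
  have key1 : ∀ {a c d : ℝ}, R a c d → R a (d - c) d := by
    intro a c d h1
    have h2 := h.r1 _ _ _ h1
    have e : 2 * 0 * a + 2 * (1 / 2) * d - c = d - c := by ring
    rw [e] at h2
    exact h2
  have key2 : ∀ {a c d : ℝ}, R a c d → R a c (s * a + c - d) := by
    intro a c d h1
    have h2 := h.r2 _ _ _ h1
    have e : 2 * b * a + 2 * (1 / 2) * c - d = s * a + c - d := by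
      rw [hsd]
      ring
    rw [e] at h2
    exact h2
  have key0 : ∀ {a c d : ℝ}, R a c d → R (s * d - a) c d := by
    intro a c d h1
    have h2 := h.r0 _ _ _ h1
    have e : 2 * 0 * c + 2 * b * d - a = s * d - a := by
      rw [hsd]
      ring
    rw [e] at h2
    exact h2
  have r1 := key1 hR
  have r1' := key1 hR'
  have r2 := key2 r1
  have r2' := key2 r1'
  have r3 := key0 r2
  have r3' := key0 r2'
  -- `A > y`
  have hA0 : 0 < q * m + p := by
    have := mul_nonneg q0 hm.le
    linarith only [hy, hpy, this]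
  have hA0' : 0 < q' * m + p' := by
    have h1 : 0 < (q' * m + p') * y := by
      rw [← hA]
      exact mul_pos hA0 (by linarith only [hy'])
    exact (mul_pos_iff_of_pos_right (by linarith only [hy])).1 h1
  have hq1 : 0 < q := by
    by_contra hcon
    have hq : q = 0 := le_antisymm (not_lt.1 hcon) q0
    rw [hq, hpy] at hA
    have hA' : y' = q' * m + p' := by
      have h1 : p * y' = p * (q' * m + p') := by linarith only [hA]
      exact mul_left_cancel₀ (by linarith only [hy, hpy]) h1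
    -- `p' ≥ y'`
    have h2 : 0 < p' := by
      by_contra hcon2
      have h3 : p' = 0 := le_antisymm (not_lt.1 hcon2) p0'
      rw [h3] at r1' hA'
      rcases h.z _ _ _ r1' with ⟨-, b1, -⟩ | ⟨a1, -, -⟩
      · have := z1_nonneg b1
        linarith only [hA0', hA', h3, this]
      · have h4 := z1_nonneg a1
        have h5 : q' = 0 := by linarith only [q0', h4]
        rw [h5] at hA'
        linarith only [hy', hA']
    have h3 := (coh h r1' (Or.inr (Or.inr h2))).2.1
    have h4 := mul_nonneg q0' hm.le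
    have h5 : p' = y' := by linarith only [hA', h3, h4]
    rw [h5, hpy] at hD
    linarith only [hD]
  have hAy : y < q * m + p := by
    have := mul_pos hq1 hm
    linarith only [hpy, this]
  have hAy' : y' < q' * m + p' := by
    have h1 : y * y' < y * (q' * m + p') := by
      have := mul_lt_mul_of_pos_right hAy (by linarith only [hy'] : 0 < y')
      linarith only [hA, this]
    exact lt_of_mul_lt_mul_left h1 (by linarith only [hy])
  have hr1' : 0 ≤ p' - y' := by
    rcases p0'.eq_or_lt with h1 | h1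
    · exfalso
      rw [← h1] at r1' hAy'
      rcases h.z _ _ _ r1' with ⟨-, b1, -⟩ | ⟨a1, -, -⟩
      · have := z1_nonneg b1
        linarith only [hy', this]
      · have h4 := z1_nonneg a1
        have h5 : q' = 0 := by linarith only [q0', h4]
        rw [h5] at hAy'
        linarith only [hy', hAy']
    · exact (coh h r1' (Or.inr (Or.inr h1))).2.1
  have hqp' : 0 < q' ∨ 0 < p' - y' := by
    by_contra hcon
    have h1 : q' ≤ 0 := by
      by_contra h2
      exact hcon (Or.inl (not_le.1 h2))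
    have h3 : p' - y' ≤ 0 := by
      by_contra h2
      exact hcon (Or.inr (not_le.1 h2))
    have h4 : q' = 0 := le_antisymm h1 q0'
    rw [h4] at hAy'
    linarith only [hAy', h3]
  have hr2 : 0 ≤ s * q - y := by
    have := (coh h r2 (Or.inl hq1)).2.2
    linarith only [this]
  have hr2' : 0 ≤ s * q' - y' := by
    have : 0 ≤ s * q' + (p' - y') - p' := by
      rcases hqp' with h1 | h1
      · exact (coh h r2' (Or.inl h1)).2.2
      · exact (coh h r2' (Or.inr (Or.inl h1))).2.2
    linarith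
  -- `ζ = m + s (1 + ε)`, `ε = -(q m + p) / y`; `y ζ = m y + s (y - q m - p)`
  obtain ⟨η, hη⟩ : ∃ η, η = (q * m + p) / y := ⟨_, rfl⟩
  have hηy : η * y = q * m + p := by
    rw [hη]
    field_simp
  have hηy' : η * y' = q' * m + p' := by
    have h1 : y * (η * y') = y * (q' * m + p') := by
      linear_combination y' * hηy + hA
    exact mul_left_cancel₀ (by linarith only [hy]) h1
  have hη1 : 1 < η := by
    have h1 : 1 * y < η * y := by linarith only [hAy, hηy]
    exact lt_of_mul_lt_mul_right h1 (by linarith only [hy])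
  have f2 : q * (m + s * (1 - η)) + (p - y) + (s * q - y) * (η - 1) = 0 := by linear_combination -hηy
  have f2' : q' * (m + s * (1 - η)) + (p' - y') + (s * q' - y') * (η - 1) = 0 := by
    linear_combination -hηy'
  have hζ : m + s * (1 - η) < 0 := by
    by_contra hcon
    have h1 := not_lt.1 hcon
    have h2 := mul_nonneg q0' h1
    have h3 := mul_nonneg hr2' (by linarith only [hη1] : 0 ≤ η - 1)
    have h4 : p' - y' = 0 := by linarith only [hr1', f2', h2, h3]
    have h5 : p' = y' := by linarith only [h4]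
    rw [h5, hpy] at hD
    linarith only [hD]
  have hsq : 0 < s * q - y := by
    rcases hr2.eq_or_lt with h1 | h1
    · exfalso
      rw [← h1, ← hpy] at f2
      have := mul_neg_of_pos_of_neg hq1 hζ
      linarith only [f2, this]
    · exact h1
  have e3 : s * (s * q + (p - y) - p) - q = (s ^ 2 - 1) * q - s * p := by
    rw [hpy]
    ring
  have hc3 := coh h r3 (Or.inr (Or.inr (by linarith only [hsq])))
  rw [e3] at hc3 r3
  rcases hc3.1.eq_or_lt with h1 | h1
  · exfalso
    -- `x = z4`, `φ z4 = (η - 1) + s ζ = 0`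
    have f3 : (η - 1) + s * (m + s * (1 - η)) = 0 := by
      have h2 : (s * q - y) * ((η - 1) + s * (m + s * (1 - η))) = 0 := by
        linear_combination f2 - (m + s * (1 - η)) * h1 - (s * (m + s * (1 - η)) - 1) * hpy
      rcases mul_eq_zero.1 h2 with h3 | h3
      · linarith only [hsq, h3]
      · exact h3
    have f3' : (s * (s * q' + (p' - y') - p') - q') * (-(m + s * (1 - η))) + (p' - y') = 0 := by
      linear_combination f2' - (s * q' - y') * f3
    rcases hqp' with h2 | h2
    · rcases hr2'.eq_or_lt with h3 | h3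
      · rw [← h3] at f2'
        have h4 := mul_neg_of_pos_of_neg h2 hζ
        have h5 : 0 < p' - y' := by linarith only [f2', h4]
        have h6 := (coh h r3' (Or.inr (Or.inl h5))).1
        have h7 := mul_nonneg h6 (by linarith only [hζ] : 0 ≤ -(m + s * (1 - η)))
        linarith only [f3', h5, h7]
      · have h4 : 0 < s * q' + (p' - y') - p' := by linarith only [h3]
        have h6 := (coh h r3' (Or.inr (Or.inr h4))).1
        have h7 := mul_nonneg h6 (by linarith only [hζ] : 0 ≤ -(m + s * (1 - η)))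
        have h8 : p' = y' := by linarith only [hr1', f3', h7]
        rw [h8, hpy] at hD
        linarith only [hD]
    · have h6 := (coh h r3' (Or.inr (Or.inl h2))).1
      have h7 := mul_nonneg h6 (by linarith only [hζ] : 0 ≤ -(m + s * (1 - η)))
      linarith only [f3', h2, h7]
  · exact (h.z0 r3 h1).1

/-- the value of `s` for `m = 7` -/
theorem s7 {s : ℝ} (h0 : s ^ 3 - s ^ 2 - 2 * s + 1 = 0) (h1 : 1.4 ≤ s) (h2 : s ≤ 2) : 1.8 ≤ s ∧ s ≤ 1.803 := by
  constructor
  · by_contra h
    have h := not_le.1 h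
    nlinarith only [h0, mul_nonneg (by linarith only [h1] : 0 ≤ s - 1.4) (by linarith only [h] : 0 ≤ 1.8 - s)]
  · by_contra h
    have h := not_le.1 h
    nlinarith only [h0, mul_nonneg (by linarith only [h] : 0 ≤ s - 1.803) (by linarith only [h2] : 0 ≤ 2 - s)]

/-- `m = 7`, `F` beyond `V_2` -/
theorem odd_sector77 (T : Two 0 b (1 / 2) R κ f g' x1' x2' g y x2) (hb : b ≤ 1)
    (hs : ∀ n, 1 ≤ n → n ≤ 6 → 1 ≤ sq b n) (hs7 : sq b 7 = 0)
    (hm : ∀ n ≤ 6, 0 < fm b κ n) {ρ1 ρ2 : ℝ} (h2 : -b ≤ ρ2)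
    (hn : -0.43 < ((2 * b) ^ 2 - 1) + 2 * b * ρ1 + ((2 * b) ^ 3 - 2 * b) * ρ2) :
    1 < g + y * ρ1 + x2 * ρ2 := by
  have hy := T.v1
  have hu := hs 3 (by omega) (by omega)
  have hv := hs 4 (by omega) (by omega)
  obtain ⟨s, hsd⟩ : ∃ s, s = 2 * b := ⟨_, rfl⟩
  obtain ⟨u, hud⟩ : ∃ u, u = sq b 3 := ⟨_, rfl⟩
  obtain ⟨v, hvd⟩ : ∃ v, v = sq b 4 := ⟨_, rfl⟩
  have hu' : u = s ^ 2 - 1 := by rw [hud, sq3, hsd]
  have hv' : v = s ^ 3 - 2 * s := by rw [hvd, sq4, hsd]
  have huv : v = u := by
    have h1 := (sq_even8 b 3).2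
    have e : sq b (2 * 3 + 1) = sq b 7 := rfl
    have e4 : sq b (3 + 1) = sq b 4 := rfl
    rw [e, e4, hs7, ← hud, ← hvd] at h1
    rw [← hud] at hu
    rw [← hvd] at hv
    have h3 : (v - u) * (v + u) = 0 := by linarith only [h1]
    rcases mul_eq_zero.1 h3 with h4 | h4
    · linarith only [h4]
    · linarith only [hu, hv, h4]
  have h0 : s ^ 3 - s ^ 2 - 2 * s + 1 = 0 := by
    rw [hu', hv'] at huv
    linarith only [huv]
  have s2 : s ≤ 2 := by linarith only [hb, hsd]
  have s14 : 1.4 ≤ s := by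
    rw [← hud, hu'] at hu
    have hs2 := hs 2 (by omega) (by omega)
    have e2 : sq b 2 = s := by
      rw [hsd]
      show 2 * b * 1 - 0 = _
      ring
    rw [e2] at hs2
    nlinarith only [h0, hs2]
  obtain ⟨s8, s9⟩ := s7 h0 s14 s2
  have t1 : 1.8019 ≤ s := by nlinarith only [h0, s8]
  have t2 : s ≤ 1.802 := by nlinarith only [h0]
  have t3 : 3.2468 ≤ s ^ 2 := by nlinarith only [t1]
  have t4 : s ^ 2 ≤ 3.2473 := by nlinarith only [t1, t2]
  obtain ⟨p, hp⟩ : ∃ p, p = fe 0 b (1 / 2) y x2 g 6 := ⟨_, rfl⟩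
  obtain ⟨q, hq⟩ : ∃ q, q = fe 0 b (1 / 2) y x2 g 7 := ⟨_, rfl⟩
  obtain ⟨p1, q0, py, hR, hB, hN, key⟩ := odd_prep T (i := 3) (by omega)
    (by
      have : sq b (2 * 3) = sq b 6 := rfl
      rw [this]
      linarith only [hs 6 (by omega) (by omega)])
    (hm _ (by omega)) hsd hud hvd hp hq
  have q00 := z1_nonneg q0
  have u0 : 0 < u := by
    rw [hu']
    linarith only [t3]
  have huN : u ^ 2 * (2 - s) = 1 := by
    have := sq_norm b 3
    have e4 : sq b (3 + 1) = sq b 4 := rfl
    rw [e4, ← hud, ← hvd, ← hsd, huv] at this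
    linarith
  -- `y = p` is impossible
  have hyp : y ≤ p - 1 := by
    rcases py with py | py
    · exfalso
      have hpy : y = p := by linarith only [py]
      have hsx := T.p1
      obtain ⟨p', hp'⟩ : ∃ p', p' = fe 0 b (1 / 2) x1' x2' g' 6 := ⟨_, rfl⟩
      obtain ⟨q', hq'⟩ : ∃ q', q' = fe 0 b (1 / 2) x1' x2' g' 7 := ⟨_, rfl⟩
      have c6 := (T.cross 6).1
      have c7 := (T.cross 6).2
      have e7 : fe 0 b (1 / 2) y x2 g (6 + 1) = fe 0 b (1 / 2) y x2 g 7 := rfl
      have e7' : fe 0 b (1 / 2) x1' x2' g' (6 + 1) = fe 0 b (1 / 2) x1' x2' g' 7 := rfl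
      have m7 : fm b κ (6 + 1) = -1 := by
        have h1 : fm b κ (6 + 1) = κ * sq b 7 - sq b 6 := rfl
        have h3 : sq b 6 = 1 := by
          have h4 := (sq_even8 b 3).1
          have e : sq b (2 * 3) = sq b 6 := rfl
          have e4 : sq b (3 + 1) = sq b 4 := rfl
          rw [e, e4, ← hud, ← hvd, ← hsd, huv] at h4
          rw [h4]
          linarith only [huN]
        rw [h1, h3, hs7]
        ring
      rw [← hp, ← hp'] at c6
      rw [e7, e7', ← hq, ← hq', m7] at c7
      have hΔ : 0 < x2 * x1' - x2' * y := by linarith only [T.st]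
      have hm6 := hm 6 le_rfl
      have hR0 : R q y p := by
        rcases fe_mem T.h T.hy 6 with ⟨-, h1, -⟩ | ⟨h0, -⟩
        · rw [← hp, e7, ← hq] at h1
          exact h1
        · omega
      have hR0' : R q' x1' p' := by
        rcases fe_mem T.h T.hx 6 with ⟨-, h1, -⟩ | ⟨h0, -⟩
        · rw [← hp', e7', ← hq'] at h1
          exact h1
        · omega
      have p0' : 0 ≤ p' := by
        rw [hp']
        exact z1_nonneg (fe_z T.h T.hx (by linarith only [hsx]) 6)
      have q0' : 0 ≤ q' := by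
        rw [hq']
        exact z1_nonneg (fe_z T.h T.hx (by linarith only [hsx]) 7)
      have h5 := nc77 T.h hsd hm6 hR0 hR0' p1 q00 hy hsx p0' q0'
        (by linear_combination fm b κ 6 * c7 + c6)
        (by rw [c6]; exact mul_pos hm6 hΔ) hpy
      have h6 : 1 < (s ^ 2 - 3) * q := by linarith only [hB, h5]
      have h7 : 4 < q := by
        by_contra hcon
        have := mul_le_mul (by linarith only [t4] : s ^ 2 - 3 ≤ 0.2473) (not_lt.1 hcon) q00 (by norm_num)
        norm_num at this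
        linarith only [h6, this]
      have h8 : s ^ 2 = (s * p - 2 * q) * (s * p - (s ^ 2 - 2) * q) + (4 - s ^ 2) * q ^ 2 := by
        rw [hpy] at hN
        linear_combination (-(s ^ 2)) * hN
      have h9 : 0 ≤ (s * p - 2 * q) * (s * p - (s ^ 2 - 2) * q) := by
        apply mul_nonneg (by linarith only [hB])
        have := mul_nonneg (by linarith only [t4] : 0 ≤ 4 - s ^ 2) q00
        linarith only [hB, this]
      have h10 : 0.75 * 16 ≤ (4 - s ^ 2) * q ^ 2 := mul_le_mul (by linarith only [t4]) (by nlinarith only [h7]) (by norm_num) (by linarith only [t4])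
      norm_num at h10
      linarith only [t4, h8, h9, h10]
    · linarith only [py]
  have s0 : 0 < s := by linarith only [t1]
  obtain ⟨D, hD⟩ : ∃ D, D = (s ^ 2 - 1) * (s / 2) - (s ^ 2 - 1 + 0.43) / s - 1 / 2 := ⟨_, rfl⟩
  have hDs : s * D = s * ((s ^ 2 - 1) * (s / 2)) - (s ^ 2 - 1 + 0.43) - s / 2 := by
    rw [hD]
    field_simp
  have hs4 : s * D = 0.07 := by
    rw [hDs]
    linear_combination (s + 1) / 2 * h0
  have D0 : 0 ≤ D := by
    have : 0 ≤ s * D := by
      rw [hs4]
      norm_num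
    exact nonneg_of_mul_nonneg_right this s0
  have D1 : D ≤ 0.05 := by
    have : s * D ≤ s * 0.05 := by
      rw [hs4]
      linarith only [t1]
    exact le_of_mul_le_mul_left this s0
  have hV := odd77' h0 s8 s9 D0 D1 hN hB hy hyp
  have hgx : g - s / 2 * x2 = p - s / 2 * q - y / 2 := by
    rw [huv] at key
    have h1 : (2 * u) * (g - s / 2 * x2) = (2 * u) * (p - s / 2 * q - y / 2) := by
      linear_combination -key
    exact mul_left_cancel₀ (by linarith only [u0]) h1
  -- the slope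
  have hX : 0 ≤ x2 - (s ^ 2 - 1) * y := by
    have cq := (fe_closed8 b y x2 g 3).2
    have e7 : fe 0 b (1 / 2) y x2 g (2 * 3 + 1) = fe 0 b (1 / 2) y x2 g 7 := rfl
    have e4 : sq b (3 + 1) = sq b 4 := rfl
    rw [e7, e4, ← hq, ← hud, ← hvd, ← hsd, huv] at cq
    have h1 : x2 = y * u ^ 2 - q := by
      rw [cq]
      linear_combination (-x2) * huN
    have h3 := T.obt
    have h4 : 2 * p ≤ s * q + y := by
      have h5 : 2 * g ≤ s * x2 := by
        rw [hsd]
        linarith only [h3]
      have h6 : 2 * g = 2 * p - s * q - y + s * x2 := by linarith only [hgx]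
      linarith only [h5, h6]
    have h5 : (4 - s ^ 2) * q < s * y := by
      have := mul_le_mul_of_nonneg_left h4 s0.le
      nlinarith only [hB, this]
    have h6 : u ^ 2 - u = s + 1 := by
      rw [hu']
      linear_combination (s + 1) * h0
    have h7 : q ≤ (s + 1) * y := by
      by_contra hcon
      have h8 := not_le.1 hcon
      have h9 : 0.75 * ((s + 1) * y) ≤ (4 - s ^ 2) * q := by
        apply mul_le_mul (by linarith only [t4]) h8.le (by positivity) (by linarith only [t4])
      have h10 : s * y ≤ 0.75 * ((s + 1) * y) := by nlinarith only [q00, huN, hyp, D0, D1, hV, h4, h5, h8]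
      linarith only [h5, h9, h10]
    rw [h1, ← hu']
    nlinarith only [D0, hV, h4, h6, h7]
  rw [← hsd] at hn
  have f1 : y / s * (-0.43) < y / s * ((s ^ 2 - 1) + s * ρ1 + (s ^ 3 - s) * ρ2) :=
    mul_lt_mul_of_pos_left hn (by positivity)
  have f2 : (x2 - (s ^ 2 - 1) * y) * (-(s / 2)) ≤ (x2 - (s ^ 2 - 1) * y) * ρ2 :=
    mul_le_mul_of_nonneg_left (by linarith only [h2, hsd]) hX
  have f3 : g + y * ρ1 + x2 * ρ2 = (g - (s ^ 2 - 1) / s * y) +
      y / s * ((s ^ 2 - 1) + s * ρ1 + (s ^ 3 - s) * ρ2) + (x2 - (s ^ 2 - 1) * y) * ρ2 := by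
    field_simp
    ring
  have f4 : y / s * (-0.43) + (g - (s ^ 2 - 1) / s * y) + (x2 - (s ^ 2 - 1) * y) * (-(s / 2)) =
      g - s / 2 * x2 + (D + 1 / 2) * y := by
    rw [hD]
    field_simp
    ring
  rw [f3]
  linarith only [hV, hgx, f1, f2, f4]

end

end DY.G4B
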